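import Pool.Agent.N568.BK.Free

/-!
# The coefficients of the words over a set `B` with `p ∣ binom(2b, 2b')` (helper7)
-/

set_option autoImplicit false

namespace Pool.Agent.D0H7.BK

open Finset
open Pool.Agent.N568.BK (AR cR cR_map cR_rat c)

/-- `p` divides `binom(2b, 2b')` for all distinct `b, b' ∈ B`; the elements of `B` are positive -/
structure Crit (p : ℕ) (B : Set ℕ) : Prop where
  pos : ∀ b ∈ B, 1 ≤ b
  dvd : ∀ b ∈ B, ∀ b' ∈ B, b ≠ b' → p ∣ (2 * b).choose (2 * b')

section

variable {p : ℕ} {R : Type} [CommRing R] [CharP R p] {B : Set ℕ}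

lemma choose_eq (hB : Crit p B) {b k : ℕ} (hb : b ∈ B) (hk : k ∈ B) :
    ((2 * b).choose (2 * k) : R) = if k = b then 1 else 0 := by
  by_cases h : k = b
  · rw [if_pos h, h, Nat.choose_self, Nat.cast_one]
  · rw [if_neg h]
    exact (CharP.cast_eq_zero_iff R p _).2 (hB.dvd b hb k hk (Ne.symm h))

/-- one step, at the words over `B` -/
theorem AR_B (hB : Crit p B) {b : ℕ} (hb : b ∈ B) : ∀ (v : List ℕ) (k : ℕ) (g : List ℕ → R), k ∈ B →
    (∀ x ∈ v, x ∈ B) → AR b g (2 * k :: v.map (2 * ·)) = if k = b then g (v.map (2 * ·)) else 0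
  | [], k, g, hk, _ => by
      simp only [List.map_nil]
      unfold AR
      by_cases h : k = b
      · rw [if_pos (by rw [h]), if_pos h]
      · rw [if_neg (by omega), if_neg h]
  | l :: v, k, g, hk, hv => by
      have hl : l ∈ B := hv l (List.mem_cons_self ..)
      rw [List.map_cons]
      have h1 : AR b g (2 * k :: 2 * l :: v.map (2 * ·)) =
          AR b (fun e' => g (2 * k :: e')) (2 * l :: v.map (2 * ·)) +
          if 2 * b ≤ 2 * k + 2 * l then
            ((-1) ^ (2 * k) * ((2 * b).choose (2 * k) : R) - (-1) ^ (2 * l) * ((2 * b).choose (2 * l) : R)) *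
              g ((2 * k + 2 * l - 2 * b) :: v.map (2 * ·))
          else 0 := rfl
      rw [h1, AR_B hB hb v l (fun e' => g (2 * k :: e')) hl (fun x hx => hv x (List.mem_cons_of_mem _ hx))]
      rw [choose_eq (R := R) hB hb hk, choose_eq (R := R) hB hb hl]
      have e1 : ((-1 : R)) ^ (2 * k) = 1 := by rw [pow_mul]; norm_num
      have e2 : ((-1 : R)) ^ (2 * l) = 1 := by rw [pow_mul]; norm_num
      rw [e1, e2]
      by_cases hkb : k = b
      · by_cases hlb : l = b
        · subst hkb hlb
          simp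
        · subst hkb
          rw [if_neg hlb, if_pos rfl, if_neg hlb, if_pos (by omega), if_pos rfl]
          have : 2 * k + 2 * l - 2 * k = 2 * l := by omega
          rw [this]
          ring
      · by_cases hlb : l = b
        · subst hlb
          rw [if_pos rfl, if_neg hkb, if_pos rfl, if_pos (by omega), if_neg hkb]
          have : 2 * k + 2 * l - 2 * l = 2 * k := by omega
          rw [this]
          ring
        · rw [if_neg hlb, if_neg hkb, if_neg hlb]
          simp [hkb]

/-- the coefficient of the word `v` in the product of the letters of `w` is `1` if `v = w` and `0` otherwise, modulo `p` -/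
theorem cR_B (hB : Crit p B) : ∀ (w v : List ℕ), v.length = w.length → (∀ x ∈ w, x ∈ B) → (∀ x ∈ v, x ∈ B) →
    cR R w (v.map (2 * ·)) = if w = v then 1 else 0
  | [], v, hl, _, _ => by
      have : v = [] := by simpa using hl
      subst this
      simp [cR]
  | b :: w, [], hl, _, _ => by simp at hl
  | b :: w, k :: v, hl, hw, hv => by
      have hl' : v.length = w.length := by simpa using hl
      have h1 : cR R (b :: w) ((k :: v).map (2 * ·)) = AR b (cR R w) (2 * k :: v.map (2 * ·)) := rfl
      rw [h1, AR_B hB (hw b (List.mem_cons_self ..)) v k (cR R w) (hv k (List.mem_cons_self ..))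
        (fun x hx => hv x (List.mem_cons_of_mem _ hx)),
        cR_B hB w v hl' (fun x hx => hw x (List.mem_cons_of_mem _ hx)) (fun x hx => hv x (List.mem_cons_of_mem _ hx))]
      by_cases h1 : k = b
      · subst h1
        rw [if_pos rfl]
        by_cases h2 : w = v
        · rw [if_pos h2, if_pos (by rw [h2])]
        · rw [if_neg h2, if_neg (by simpa using h2)]
      · rw [if_neg h1, if_neg]
        intro h
        rw [List.cons.injEq] at h
        exact h1 h.1.symm

end

/-- the integral coefficients modulo `p` -/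
theorem c_int {p : ℕ} (hp : p.Prime) {B : Set ℕ} (hB : Crit p B) (w v : List ℕ) (hl : v.length = w.length)
    (hw : ∀ x ∈ w, x ∈ B) (hv : ∀ x ∈ v, x ∈ B) :
    ∃ k : ℤ, c w (v.map (2 * ·)) = k ∧ (p : ℤ) ∣ k - if w = v then 1 else 0 := by
  have : Fact p.Prime := ⟨hp⟩
  refine ⟨cR ℤ w (v.map (2 * ·)), ?_, ?_⟩
  · rw [← cR_rat, ← cR_map (Int.castRingHom ℚ)]
    rfl
  · rw [← ZMod.intCast_zmod_eq_zero_iff_dvd]
    have h1 := cR_map (Int.castRingHom (ZMod p)) w (v.map (2 * ·))
    have h3 := cR_B (R := ZMod p) hB w v hl hw hv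
    rw [h3] at h1
    rw [Int.cast_sub]
    have h2 : ((cR ℤ w (v.map (2 * ·)) : ℤ) : ZMod p) = if w = v then 1 else 0 := h1
    rw [h2]
    split_ifs <;> simp

/-- the coefficient vectors of the words over `B` are linearly independent -/
theorem indep_B {p : ℕ} (hp : p.Prime) {B : Set ℕ} (hB : Crit p B) (r : ℕ) (F : Finset (List ℕ))
    (hF : ∀ w ∈ F, w.length = r ∧ ∀ x ∈ w, x ∈ B) (lam : List ℕ → ℚ)
    (h : ∀ w ∈ F, ∑ w' ∈ F, lam w' * c w' (w.map (2 * ·)) = 0) : ∀ w ∈ F, lam w = 0 := by
  classical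
  have : Fact p.Prime := ⟨hp⟩
  set M : Matrix F F ℤ := fun w' w => cR ℤ w'.1 (w.1.map (2 * ·)) with hM
  have hdet : M.det ≠ 0 := by
    intro h0
    have h1 : (Int.castRingHom (ZMod p)) M.det = 0 := by rw [h0, map_zero]
    rw [RingHom.map_det] at h1
    have h2 : (Int.castRingHom (ZMod p)).mapMatrix M = (1 : Matrix F F (ZMod p)) := by
      ext w' w
      rw [RingHom.mapMatrix_apply, Matrix.map_apply, hM]
      rw [cR_map (Int.castRingHom (ZMod p)), cR_B hB w'.1 w.1 ((hF _ w.2).1.trans (hF _ w'.2).1.symm)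
        (hF _ w'.2).2 (hF _ w.2).2, Matrix.one_apply]
      by_cases hww : w' = w
      · rw [if_pos (by rw [hww]), if_pos hww]
      · rw [if_neg (fun h => hww (Subtype.ext h)), if_neg hww]
    rw [h2, Matrix.det_one] at h1
    exact one_ne_zero h1
  have hdet' : ((Int.castRingHom ℚ).mapMatrix M).det ≠ 0 := by
    rw [← RingHom.map_det]
    simpa using hdet
  have h3 := Matrix.eq_zero_of_vecMul_eq_zero hdet' (v := fun w => lam w.1) (by
    funext w
    have h4 := h w.1 w.2
    rw [← Finset.sum_attach] at h4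
    rw [Matrix.vecMul, Pi.zero_apply]
    refine Eq.trans ?_ h4
    unfold dotProduct
    rw [← Finset.attach_eq_univ]
    refine Finset.sum_congr rfl fun w' _ => ?_
    congr 1
    show (Int.castRingHom ℚ) (cR ℤ w'.1 (w.1.map (2 * ·))) = _
    rw [cR_map (Int.castRingHom ℚ), cR_rat])
  intro w hw
  exact congrFun h3 ⟨w, hw⟩

end Pool.Agent.D0H7.BK
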