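import Pool.Agent.D0H7.BK.Lie

/-!
# The dimension of the space of the iterated brackets (helper7)
-/

set_option autoImplicit false

namespace Pool.Agent.D0H7.BK

open Finset Pool.Agent.H777R4.DM

attribute [local instance 100] LieRing.ofAssociativeRing

/-! ### the elements `(ad x₀)^m x₁` -/

lemma adp_one : ∀ m : ℕ, co (adp m) (wordX [m]) = 1
  | 0 => by
      show co (wd [1]) _ = 1
      rw [co_wd, if_pos]
      rfl
  | m + 1 => by
      have h1 : adp (m + 1) = x 0 * adp m - adp m * x 0 := rfl
      have h2 : wordX [m + 1] = 0 :: wordX [m] := rfl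
      have h3 : wordX [m + 1] = List.replicate (m + 1) 0 ++ [1] := rfl
      rw [h1, co_sub]
      have h4 : co (x 0 * adp m) (wordX [m + 1]) = 1 := by
        rw [h2]
        unfold x
        rw [co_lmul, if_pos rfl, adp_one m]
      have h5 : co (adp m * x 0) (wordX [m + 1]) = 0 := by
        rw [h3]
        unfold x
        rw [co_rmul, if_neg (by decide)]
      rw [h4, h5, sub_zero]

/-- `f_b = (ad x₀)^(2 b) x₁` -/
noncomputable def fb (b : ℕ) : A := adp (2 * b)

/-- `L_(r,n)` -/
noncomputable def L (r n : ℕ) : Submodule ℚ A :=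
  Submodule.span ℚ {g | ∃ b : List ℕ, b.length = r ∧ b.sum = n ∧ (∀ x ∈ b, 1 ≤ x) ∧ g = br fb b}

lemma fin_lists (r n : ℕ) : {b : List ℕ | b.length = r ∧ b.sum = n}.Finite := by
  refine (Set.finite_range (fun v : Fin r → Fin (n + 1) => List.ofFn fun i => (v i : ℕ))).subset ?_
  rintro b ⟨rfl, hn⟩
  have h : ∀ i : Fin b.length, b.get i < n + 1 := fun i => by
    have := List.le_sum_of_mem (b.get_mem i)
    omega
  exact ⟨fun i => ⟨b.get i, h i⟩, List.ofFn_get b⟩

instance fin_L (r n : ℕ) : FiniteDimensional ℚ (L r n) := by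
  refine FiniteDimensional.span_of_finite ℚ (((fin_lists r n).image (br fb)).subset ?_)
  rintro g ⟨b, h1, h2, _, rfl⟩
  exact ⟨b, ⟨h1, h2⟩, rfl⟩

/-- the letters `M, …, 3 M` -/
def lt (M : ℕ) (i : Fin (2 * M + 1)) : ℕ := M + i

lemma lt_inj (M : ℕ) : Function.Injective (lt M) := by
  intro i j h
  unfold lt at h
  exact Fin.ext (by omega)

lemma ind_lt (M : ℕ) : Ind (Set.range (lt M)) := by
  classical
  have h := ind_few M (univ.image (lt M)) (card_image_le.trans (by simp)) (by
    intro b hb
    rw [mem_image] at hb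
    obtain ⟨i, _, rfl⟩ := hb
    exact Nat.le_add_right _ _)
  rwa [coe_image, coe_univ, Set.image_univ] at h

theorem Phi_lt_inj (M : ℕ) (hM : 1 ≤ M) : Function.Injective (PhiN fun i => fb (lt M i)) := by
  refine inj (fun i => fb (lt M i)) (lt M) (fun i => hM.trans (Nat.le_add_right _ _)) (fun i => adp_mem _)
    (fun i u hu => (adp_words _ u hu).1) (lt_inj M) (ind_lt M) fun i => ?_
  have h : co (fb (lt M i)) (wordX [2 * lt M i]) = 1 := adp_one _
  rw [h]
  exact one_ne_zero

open Classical in
/-- the words with the largest letter at the end -/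
noncomputable def T (M d n : ℕ) : Finset (List (Fin (2 * M + 1))) :=
  ((univ : Finset (Fin (d + 1) → Fin (2 * M + 1))).image List.ofFn).filter fun w =>
    (w.map (lt M)).sum = n ∧ ML (w.map (lt M))

lemma mem_T (M d n : ℕ) (w : List (Fin (2 * M + 1))) : w ∈ T M d n ↔
    (∃ v : Fin (d + 1) → Fin (2 * M + 1), List.ofFn v = w) ∧ (w.map (lt M)).sum = n ∧ ML (w.map (lt M)) := by
  unfold T
  simp only [mem_filter, mem_image, mem_univ, true_and]

theorem T_indep (M : ℕ) (hM : 1 ≤ M) (d n : ℕ) :
    LinearIndependent ℚ (fun w : T M d n => br fb (w.1.map (lt M))) := by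
  have h1 : LinearIndependent ℚ (fun w : T M d n => adw w.1) := by
    rw [linearIndependent_iff']
    intro s g hg i hi
    have h2 := congrArg (fun P => co P i.1) hg
    simp only [co_zero] at h2
    rw [Lead2.co_sum, sum_eq_single i] at h2
    · rw [co_smul, co_adw_ML (lt M) (lt_inj M) i.1 i.1 ((mem_T M d n i.1).1 i.2).2.2 ((mem_T M d n i.1).1 i.2).2.2, if_pos rfl,
        mul_one] at h2
      exact h2
    · intro j _ hj
      rw [co_smul, co_adw_ML (lt M) (lt_inj M) j.1 i.1 ((mem_T M d n j.1).1 j.2).2.2 ((mem_T M d n i.1).1 i.2).2.2, if_neg, mul_zero]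
      exact fun h => hj (Subtype.ext h)
    · exact fun h => absurd hi h
  have h2 := h1.map' (PhiN fun i => fb (lt M i)) (LinearMap.ker_eq_bot.2 (Phi_lt_inj M hM))
  have h3 : (fun w : T M d n => br fb (w.1.map (lt M))) = (PhiN fun i => fb (lt M i)) ∘ fun w : T M d n => adw w.1 :=
    funext fun w => (Phi_adw fb (lt M) w.1).symm
  rw [h3]
  exact h2

theorem T_le (M : ℕ) (hM : 1 ≤ M) (d n : ℕ) : (T M d n).card ≤ Module.finrank ℚ (L (d + 1) n) := by
  have hmem : ∀ w : T M d n, br fb (w.1.map (lt M)) ∈ L (d + 1) n := by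
    intro w
    have h1 := (mem_T M d n w.1).1 w.2
    obtain ⟨v, hv⟩ := h1.1
    refine Submodule.subset_span ⟨w.1.map (lt M), ?_, h1.2.1, ?_, rfl⟩
    · rw [List.length_map, ← hv, List.length_ofFn]
    · intro x hx
      rw [List.mem_map] at hx
      obtain ⟨i, _, rfl⟩ := hx
      exact hM.trans (Nat.le_add_right _ _)
  have h1 : LinearIndependent ℚ (fun w : T M d n => (⟨br fb (w.1.map (lt M)), hmem w⟩ : L (d + 1) n)) := by
    apply LinearIndependent.of_comp (L (d + 1) n).subtype
    exact T_indep M hM d n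
  have h2 := h1.fintype_card_le_finrank
  rwa [Fintype.card_coe] at h2

/-- the sequences -/
def C (M d n : ℕ) : Finset (Fin (d + 1) → Fin (2 * M)) := univ.filter fun c => ∑ i, (M + (c i : ℕ)) + 1 = n

theorem C_le (M d n : ℕ) : (C M d n).card ≤ (d + 1) * (T M d n).card := by
  classical
  -- the position of the maximum
  have hmax : ∀ c : Fin (d + 1) → Fin (2 * M), ∃ i, ∀ j, c j ≤ c i := fun c => Finite.exists_max c
  choose i hi using hmax
  have hlt : ∀ (c : Fin (d + 1) → Fin (2 * M)) (j : Fin (d + 1)),
      (c (j + (i c + 1)) : ℕ) + (if j = Fin.last d then 1 else 0) < 2 * M + 1 := by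
    intro c j
    have := (c (j + (i c + 1))).2
    split_ifs <;> omega
  set w : (Fin (d + 1) → Fin (2 * M)) → (Fin (d + 1) → Fin (2 * M + 1)) := fun c j =>
    ⟨(c (j + (i c + 1)) : ℕ) + (if j = Fin.last d then 1 else 0), hlt c j⟩ with hw
  have hcard : (C M d n).card ≤ ((univ : Finset (Fin (d + 1))) ×ˢ T M d n).card := by
    refine card_le_card_of_injOn (fun c => (i c, List.ofFn (w c))) ?_ ?_
    · intro c hc
      have hc' : ∑ i, (M + (c i : ℕ)) + 1 = n := by
        have := mem_coe.1 hc
        unfold C at this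
        exact (mem_filter.1 this).2
      rw [mem_coe, mem_product]
      refine ⟨mem_univ _, ?_⟩
      rw [mem_T]
      refine ⟨⟨_, rfl⟩, ?_, ?_⟩
      · show ((List.ofFn (w c)).map (lt M)).sum = n
        rw [List.map_ofFn, List.sum_ofFn]
        have h1 : ∀ j, (lt M ∘ w c) j = (M + (c (j + (i c + 1)) : ℕ)) + (if j = Fin.last d then 1 else 0) := by
          intro j
          show M + ((c (j + (i c + 1)) : ℕ) + (if j = Fin.last d then 1 else 0)) = _
          rw [add_assoc]
        rw [sum_congr rfl fun j _ => h1 j, sum_add_distrib, sum_ite_eq' univ (Fin.last d), if_pos (mem_univ _)]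
        have h2 : ∑ x, (M + (c (x + (i c + 1)) : ℕ)) = ∑ x, (M + (c x : ℕ)) :=
          Equiv.sum_comp (Equiv.addRight (i c + 1)) (fun j => M + (c j : ℕ))
        rw [h2]
        exact hc'
      · show ML ((List.ofFn (w c)).map (lt M))
        rw [List.map_ofFn, List.ofFn_succ', List.concat_eq_append]
        refine ⟨_, _, rfl, ?_⟩
        intro x hx
        rw [List.mem_ofFn] at hx
        obtain ⟨j, rfl⟩ := hx
        show M + ((c (j.castSucc + (i c + 1)) : ℕ) + (if j.castSucc = Fin.last d then 1 else 0)) <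
          M + ((c (Fin.last d + (i c + 1)) : ℕ) + (if Fin.last d = Fin.last d then 1 else 0))
        have h1 : Fin.last d + (i c + 1) = i c := by
          rw [add_comm (i c) 1, ← add_assoc, Fin.last_add_one, zero_add]
        rw [h1, if_pos rfl, if_neg (Fin.castSucc_lt_last j).ne]
        have h2 : (c (j.castSucc + (i c + 1)) : ℕ) ≤ (c (i c) : ℕ) := hi c _
        omega
    · intro c _ c' _ h
      simp only [Prod.mk.injEq] at h
      have h1 := List.ofFn_injective h.2
      funext k
      have h2 := congrFun h1 (k - (i c + 1))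
      simp only [hw, Fin.mk.injEq] at h2
      rw [← h.1, sub_add_cancel] at h2
      exact Fin.ext (by omega)
  rw [card_product, card_univ, Fintype.card_fin] at hcard
  exact hcard

/-- **the dimension** -/
theorem dim_count (M : ℕ) (hM : 1 ≤ M) (d n : ℕ) : (C M d n).card ≤ (d + 1) * Module.finrank ℚ (L (d + 1) n) :=
  (C_le M d n).trans (Nat.mul_le_mul_left _ (T_le M hM d n))

/-! ### a closed form -/

/-- `0, x_0, …, x_(d-1), 0` -/
def pad {d m : ℕ} (x : Fin d → Fin m) (i : ℕ) : ℕ := if h : 1 ≤ i ∧ i ≤ d then (x ⟨i - 1, by omega⟩ : ℕ) else 0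

lemma pad_lt {d m : ℕ} (hm : 1 ≤ m) (x : Fin d → Fin m) (i : ℕ) : pad x i < m := by
  unfold pad
  split_ifs with h
  · exact (x _).2
  · omega

theorem C_ge (d n m M : ℕ) (hn : 1 ≤ n) (hm : 1 ≤ m) (hM : M + m = (n - 1) / (d + 1) + 1)
    (h2 : 2 * m ≤ (n - 1) / (d + 1) + 1) : m ^ d ≤ (C M d n).card := by
  classical
  set β := (n - 1) / (d + 1) with hβ
  set ρ := (n - 1) % (d + 1) with hρ
  have hdiv : (d + 1) * β + ρ = n - 1 := Nat.div_add_mod _ _
  have hρlt : ρ < d + 1 := Nat.mod_lt _ (by omega)
  -- the values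
  set e : ℕ → ℕ := fun i => if i < ρ then β + 1 else β with he
  have he1 : ∀ i, β ≤ e i ∧ e i ≤ β + 1 := by
    intro i
    simp only [he]
    split_ifs <;> omega
  have hsum : ∑ i : Fin (d + 1), e i = n - 1 := by
    have h3 : ∀ i : Fin (d + 1), e i = β + (if (i : ℕ) < ρ then 1 else 0) := by
      intro i
      simp only [he]
      split_ifs <;> omega
    rw [sum_congr rfl fun i _ => h3 i, sum_add_distrib, sum_const, card_univ, Fintype.card_fin, smul_eq_mul,
      ← hdiv, sum_boole]
    congr 1
    have h4 : (univ.filter fun i : Fin (d + 1) => (i : ℕ) < ρ).card = ρ := by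
      rw [Fin.card_filter_val_lt]
      omega
    rw [h4]
    simp
  have hval : ∀ (x : Fin d → Fin m) (i : Fin (d + 1)), e i + pad x (i + 1) - pad x i - M < 2 * M := by
    intro x i
    have h3 := he1 i
    have h4 := pad_lt hm x (i + 1)
    omega
  have hcard : ((univ : Finset (Fin d → Fin m))).card ≤ (C M d n).card := by
    refine card_le_card_of_injOn (fun x i => ⟨e i + pad x (i + 1) - pad x i - M, hval x i⟩) ?_ ?_
    · intro x _
      unfold C
      rw [mem_coe, mem_filter]
      refine ⟨mem_univ _, ?_⟩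
      have h3 : ∑ i : Fin (d + 1), (M + (e i + pad x (i + 1) - pad x i - M)) + ∑ i : Fin (d + 1), pad x i =
          ∑ i : Fin (d + 1), e i + ∑ i : Fin (d + 1), pad x (i + 1) := by
        rw [← sum_add_distrib, ← sum_add_distrib]
        refine sum_congr rfl fun i _ => ?_
        have h3 := he1 i
        have h4 := pad_lt hm x i
        omega
      have h4 : ∑ i : Fin (d + 1), pad x i = ∑ i : Fin (d + 1), pad x (i + 1) := by
        rw [Fin.sum_univ_eq_sum_range (fun i => pad x i), Fin.sum_univ_eq_sum_range (fun i => pad x (i + 1)),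
          sum_range_succ', sum_range_succ]
        have h5 : pad x 0 = 0 := by
          unfold pad
          rw [dif_neg (by omega)]
        have h6 : pad x (d + 1) = 0 := by
          unfold pad
          rw [dif_neg (by omega)]
        rw [h5, h6]
      rw [h4] at h3
      have h5 := Nat.add_right_cancel h3
      show ∑ i : Fin (d + 1), (M + (e i + pad x (i + 1) - pad x i - M)) + 1 = n
      rw [h5, hsum]
      omega
    · intro x _ x' _ h
      have h3 : ∀ i : ℕ, i ≤ d + 1 → pad x i = pad x' i := by
        intro i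
        induction i with
        | zero =>
          intro _
          unfold pad
          rw [dif_neg (by omega), dif_neg (by omega)]
        | succ i ih =>
          intro hi
          have h4 := congrFun h ⟨i, by omega⟩
          simp only [Fin.mk.injEq] at h4
          have h5 := ih (by omega)
          have h6 := he1 i
          have h7 := pad_lt hm x i
          have h8 := pad_lt hm x' i
          omega
      funext i
      have h4 := h3 (i + 1) (by omega)
      unfold pad at h4
      rw [dif_pos (by omega), dif_pos (by omega)] at h4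
      exact Fin.ext h4
  rw [card_univ, Fintype.card_fun, Fintype.card_fin, Fintype.card_fin] at hcard
  exact hcard

/-- **the dimension, closed form** -/
theorem dim_closed (r n : ℕ) (hr : 2 ≤ r) :
    ((n + r - 1) / (2 * r)) ^ (r - 1) ≤ r * Module.finrank ℚ (L r n) := by
  obtain ⟨d, rfl⟩ : ∃ d, r = d + 1 := ⟨r - 1, by omega⟩
  set m := (n + (d + 1) - 1) / (2 * (d + 1)) with hm
  rw [Nat.add_sub_cancel]
  rcases Nat.eq_zero_or_pos m with h | h
  · rw [h, zero_pow (by omega)]
    exact Nat.zero_le _
  · have hn : 1 ≤ n := by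
      by_contra hn
      have : n = 0 := by omega
      subst this
      have : m = 0 := by
        rw [hm]
        exact Nat.div_eq_of_lt (by omega)
      omega
    have h1 : m = ((n - 1) / (d + 1) + 1) / 2 := by
      have h2 : (n - 1) / (d + 1) + 1 = (n - 1 + (d + 1)) / (d + 1) := (Nat.add_div_right _ (by omega)).symm
      rw [hm, h2, Nat.div_div_eq_div_mul, Nat.mul_comm (d + 1) 2]
      congr 1
      omega
    have h2 : 2 * m ≤ (n - 1) / (d + 1) + 1 := by omega
    refine (C_ge d n m ((n - 1) / (d + 1) + 1 - m) hn h (by omega) h2).trans (dim_count _ (by omega) d n)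

end Pool.Agent.D0H7.BK
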