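import Pool.Agent.D0H7.BK.Gr

/-!
# Assembly (helper7)
-/

set_option autoImplicit false

namespace Pool.Agent.D0H7.BK

open Finset Pool.Agent.H777R4.DM

attribute [local instance 100] LieRing.ofAssociativeRing

/-- equal digit sums -/
theorem crit_digits {p : ℕ} (hp : p.Prime) (B : Set ℕ) (h1 : ∀ b ∈ B, 1 ≤ b)
    (h2 : ∀ b ∈ B, ∀ b' ∈ B, (Nat.digits p (2 * b)).sum = (Nat.digits p (2 * b')).sum) : Crit p B := by
  have : Fact p.Prime := ⟨hp⟩
  refine ⟨h1, fun b hb b' hb' hne => ?_⟩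
  rcases Nat.lt_or_ge (2 * b) (2 * b') with h | h
  · rw [Nat.choose_eq_zero_of_lt h]
    exact dvd_zero _
  · have h3 := sub_one_mul_padicValNat_choose_eq_sub_sum_digits (p := p) h
    rw [h2 b' hb' b hb, Nat.add_sub_cancel_left] at h3
    have h4 : (Nat.digits p (2 * b - 2 * b')).sum ≠ 0 := by
      intro h0
      have h5 : ∀ x ∈ Nat.digits p (2 * b - 2 * b'), x = 0 := fun x hx =>
        Nat.eq_zero_of_le_zero (h0 ▸ List.le_sum_of_mem hx)
      have h6 : Nat.digits p (2 * b - 2 * b') ≠ [] := by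
        rw [Nat.digits_ne_nil_iff_ne_zero]
        omega
      exact Nat.getLast_digit_ne_zero p (show 2 * b - 2 * b' ≠ 0 by omega) (h5 _ (List.getLast_mem _))
    by_contra hnd
    rw [padicValNat.eq_zero_of_not_dvd hnd, mul_zero] at h3
    exact h4 h3.symm

lemma count_wordX {Q : A} {r : ℕ} (h : ∀ u, u.count 1 = r → co Q u = 0) (e : List ℕ) (he : e.length = r) :
    co Q (wordX e) = 0 := h _ (by rw [wordX_count, he])

end Pool.Agent.D0H7.BK
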