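import Pool.Agent.D0H7.BK.Nil
import Pool.Agent.D0H7.BK.Arr
import Pool.Agent.N568.BK.DS3

/-!
# Freeness from the independence of the coefficient arrays (helper7)
-/

set_option autoImplicit false

namespace Pool.Agent.D0H7.BK

open Finset Pool.Agent.H777R4.DM
open Pool.Agent.N568.BK (AR cR cR_rat c P P_add P_smul P_zero wd_eq word_eq tl)
open Pool.Agent.N568.DSF (evN_Dp evN_eq)
open Pool.Agent.H861R3.DM.LeadN (evN PhiN_wd)

attribute [local instance 100] LieRing.ofAssociativeRing

/-! ### from arrays to functions -/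

lemma tl_len : ∀ (s : ℕ) (y : ℕ → ℚ), (tl s y).length = s
  | 0, _ => rfl
  | s + 1, y => by
      unfold tl
      rw [List.length_cons, tl_len s]

lemma P_van (K : ℕ) : ∀ (ys : List ℚ) (g : List ℕ → ℚ), (∀ e : List ℕ, e.length = ys.length → g e = 0) →
    P K g ys = 0
  | [], g, h => h [] rfl
  | y :: ys, g, h => by
      unfold P
      refine sum_eq_zero fun k _ => ?_
      rw [P_van K ys (fun e => g (k :: e)) (fun e he => h (k :: e) (by simpa using he)), mul_zero]

/-- the functions vanish if the arrays do -/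
theorem wd_van (r : ℕ) (F : Finset (List ℕ)) (hF : ∀ u ∈ F, u.length = r) (lam : List ℕ → ℚ)
    (h : ∀ e : List ℕ, e.length = r → ∑ u ∈ F, lam u * c u e = 0) (y : ℕ → ℚ) :
    ∑ u ∈ F, lam u * Pool.Agent.N568.BK.wd u y = 0 := by
  classical
  set K := 2 * (∑ w ∈ F, w.sum) + 1 with hK
  have hle : ∀ w ∈ F, 2 * w.sum < K := by
    intro w hw
    have := Finset.single_le_sum (f := fun w : List ℕ => w.sum) (fun _ _ => Nat.zero_le _) hw
    omega
  have hPs : ∀ (F' : Finset (List ℕ)) (ys : List ℚ), P K (fun e => ∑ b ∈ F', lam b * c b e) ys =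
      ∑ b ∈ F', lam b * P K (c b) ys := by
    intro F' ys
    induction F' using Finset.induction_on with
    | empty => simp [P_zero]
    | insert a s ha ih =>
      have h4 : (fun e : List ℕ => ∑ b ∈ insert a s, lam b * c b e) =
          fun e => (fun e => lam a * c a e) e + (fun e => ∑ b ∈ s, lam b * c b e) e := by
        funext e
        rw [sum_insert ha]
      rw [h4, P_add, ih, P_smul, sum_insert ha]
  have h1 : ∑ u ∈ F, lam u * Pool.Agent.N568.BK.wd u y = P K (fun e => ∑ b ∈ F, lam b * c b e) (tl r y) := by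
    rw [hPs]
    refine sum_congr rfl fun u hu => ?_
    rw [wd_eq, hF u hu, word_eq u (tl r y) K (by rw [tl_len, hF u hu]) (hle u hu)]
  rw [h1]
  exact P_van K _ _ fun e he => h e (by rw [he, tl_len])

/-- the words in the letters `W` are independent -/
def Ind (B : Set ℕ) : Prop := ∀ (r : ℕ) (F : Finset (List ℕ)), (∀ w ∈ F, w.length = r ∧ ∀ x ∈ w, x ∈ B) →
  ∀ lam : List ℕ → ℚ, (∀ e : List ℕ, e.length = r → ∑ w ∈ F, lam w * c w e = 0) → ∀ w ∈ F, lam w = 0

/-- few letters -/
theorem ind_few (M : ℕ) (B : Finset ℕ) (hB : B.card ≤ 2 * M + 1) (hM : ∀ b ∈ B, M ≤ b) : Ind (B : Set ℕ) :=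
  fun r F hF lam h => few_words M B hB hM r F (fun u hu => ⟨(hF u hu).1, fun x hx => by
    exact_mod_cast (hF u hu).2 x hx⟩) lam (wd_van r F (fun u hu => (hF u hu).1) lam h)

/-- the criterion -/
theorem ind_crit {p : ℕ} (hp : p.Prime) {B : Set ℕ} (hB : Crit p B) : Ind B :=
  fun r F hF lam h => indep_B hp hB r F hF lam fun w hw => h _ (by rw [List.length_map]; exact (hF w hw).1)

/-! ### the main theorem -/

section

variable {n : ℕ} (ψ : Fin n → A) (b : Fin n → ℕ) (hb : ∀ i, 1 ≤ b i) (hL : ∀ i, ψ i ∈ LieX)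
  (hhom : ∀ i u, co (ψ i) u ≠ 0 → u.length = 2 * b i + 1)

include hb hL hhom

/-- **strictness** -/
theorem strict (hbinj : Function.Injective b) (hind : Ind (Set.range b))
    (hne : ∀ i, co (ψ i) (wordX [2 * b i]) ≠ 0) (Q : Al (Fin n)) (r : ℕ)
    (ih : ∀ W : List (Fin n), W.length < r → co Q W = 0)
    (hQ : ∀ e : List ℕ, e.length = r → co (PhiN ψ Q) (wordX e) = 0) :
    ∀ W : List (Fin n), W.length = r → co Q W = 0 := by
  classical
  intro W0 hW0
  set κ : List (Fin n) → ℚ := fun W => (W.map fun i => co (ψ i) (wordX [2 * b i])).prod with hκ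
  have hκ0 : ∀ W, κ W ≠ 0 := by
    intro W
    rw [hκ]
    simp only
    apply List.prod_ne_zero
    intro h
    rw [List.mem_map] at h
    obtain ⟨i, _, hi⟩ := h
    exact hne i hi
  set S : Finset (List (Fin n)) := (Q.coeff.support.image FreeMonoid.toList).filter fun W => W.length = r
    with hS
  -- the coefficients of `PhiN ψ Q`
  have hsum : ∀ e : List ℕ, e.length = r → ∑ W ∈ S, co Q W * κ W * c (W.map b) e = 0 := by
    intro e he
    have h1 : co (PhiN ψ Q) (wordX e) = 0 := hQ e he
    rw [Lead2.expand Q, map_sum, Lead2.co_sum] at h1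
    rw [← h1, hS, sum_filter, sum_image (fun x _ y _ h => FreeMonoid.toList.injective h)]
    refine sum_congr rfl fun m hm => ?_
    rw [map_smul, co_smul, PhiN_wd]
    by_cases h2 : (FreeMonoid.toList m).length = r
    · rw [if_pos h2, evN_eq ψ b hb hL hhom (FreeMonoid.toList m) e (by rw [he, h2]), cR_rat]
      ring
    · rw [if_neg h2]
      rcases Nat.lt_or_gt_of_ne h2 with h3 | h3
      · rw [ih _ h3, zero_mul]
      · have h4 : co (evN ψ (FreeMonoid.toList m)) (wordX e) = 0 := by
          by_contra h5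
          have := evN_Dp ψ b hb hL hhom _ _ h5
          rw [wordX_count, he] at this
          omega
        rw [h4, mul_zero]
  by_cases hmem : W0 ∈ S
  · set lam : List ℕ → ℚ := fun w => ∑ W ∈ S, if W.map b = w then co Q W * κ W else 0 with hlam
    have h1 := hind r (S.image (List.map b)) (by
      intro w hw
      rw [mem_image] at hw
      obtain ⟨W, hW, rfl⟩ := hw
      rw [hS, mem_filter] at hW
      refine ⟨by rw [List.length_map]; exact hW.2, ?_⟩
      intro x hx
      rw [List.mem_map] at hx
      obtain ⟨i, _, rfl⟩ := hx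
      exact ⟨i, rfl⟩) lam (by
      intro e he
      rw [← hsum e he, sum_image (fun x _ y _ h => List.map_injective_iff.mpr hbinj h)]
      refine sum_congr rfl fun W hW => ?_
      congr 1
      rw [hlam]
      simp only
      rw [sum_eq_single W]
      · rw [if_pos rfl]
      · intro W' _ hne'
        rw [if_neg]
        exact fun h => hne' (List.map_injective_iff.mpr hbinj h)
      · exact fun h => absurd hW h)
    have h2 := h1 (W0.map b) (mem_image_of_mem _ hmem)
    rw [hlam] at h2
    simp only at h2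
    rw [sum_eq_single W0] at h2
    · rw [if_pos rfl] at h2
      exact (mul_eq_zero.mp h2).resolve_right (hκ0 W0)
    · intro W' _ hne'
      rw [if_neg]
      exact fun h => hne' (List.map_injective_iff.mpr hbinj h)
    · exact fun h => absurd hmem h
  · by_contra h
    apply hmem
    rw [hS, mem_filter]
    refine ⟨?_, hW0⟩
    rw [mem_image]
    refine ⟨FreeMonoid.ofList W0, ?_, rfl⟩
    rw [Finsupp.mem_support_iff]
    exact h

/-- **injectivity** -/
theorem inj (hbinj : Function.Injective b) (hind : Ind (Set.range b))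
    (hne : ∀ i, co (ψ i) (wordX [2 * b i]) ≠ 0) : Function.Injective (PhiN ψ) := by
  rw [← LinearMap.ker_eq_bot, LinearMap.ker_eq_bot']
  intro Q hQ
  suffices h : ∀ r : ℕ, ∀ W : List (Fin n), W.length = r → co Q W = 0 by
    exact al_ext fun W => by rw [h W.length W rfl, co_zero]
  intro r
  induction r using Nat.strong_induction_on with
  | _ r ih =>
    exact strict ψ b hb hL hhom hbinj hind hne Q r (fun W hW => ih _ hW W rfl) fun e _ => by rw [hQ, co_zero]

end

end Pool.Agent.D0H7.BK
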