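import Pool.Agent.D0H7.BK.Inc

/-!
# Injectivity on sets of words (helper7)
-/

set_option autoImplicit false

namespace Pool.Agent.D0H7.BK

open Finset Pool.Agent.H777R4.DM
open Pool.Agent.N568.BK (AR cR cR_rat c P P_add P_smul P_zero wd_eq word_eq tl)
open Pool.Agent.N568.DSF (evN_Dp evN_eq)
open Pool.Agent.H861R3.DM.LeadN (evN PhiN_wd)

attribute [local instance 100] LieRing.ofAssociativeRing

/-- the words in `Ω` are independent -/
def IndW (Ω : Set (List ℕ)) : Prop := ∀ (r : ℕ) (F : Finset (List ℕ)), (∀ w ∈ F, w.length = r ∧ w ∈ Ω) →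
  ∀ lam : List ℕ → ℚ, (∀ e : List ℕ, e.length = r → ∑ w ∈ F, lam w * c w e = 0) → ∀ w ∈ F, lam w = 0

lemma indW_few (M : ℕ) (B : Finset ℕ) (hB : B.card ≤ 2 * M + 1) (hM : ∀ b ∈ B, M ≤ b) :
    IndW {w | ∀ x ∈ w, x ∈ B} :=
  fun r F hF lam h => ind_few M B hB hM r F (fun w hw => ⟨(hF w hw).1, fun x hx => (hF w hw).2 x hx⟩) lam h

lemma indW_up {p : ℕ} (hp : p.Prime) {B : Set ℕ} {κ : ℕ → ℕ} (hR : Rk p B κ) :
    IndW {w | (∀ x ∈ w, x ∈ B) ∧ Up κ w} :=
  fun r F hF lam h => indep_up hp hR r F (fun w hw => ⟨(hF w hw).1, (hF w hw).2⟩) lam fun w hw =>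
    h _ (by rw [List.length_map]; exact (hF w hw).1)

section

variable {n : ℕ} (ψ : Fin n → A) (b : Fin n → ℕ) (hb : ∀ i, 1 ≤ b i) (hL : ∀ i, ψ i ∈ LieX)
  (hhom : ∀ i u, co (ψ i) u ≠ 0 → u.length = 2 * b i + 1)

include hb hL hhom

/-- **strictness** -/
theorem strictW (hbinj : Function.Injective b) {Ω : Set (List ℕ)} (hind : IndW Ω)
    (hne : ∀ i, co (ψ i) (wordX [2 * b i]) ≠ 0) (Q : Al (Fin n)) (r : ℕ)
    (hsup : ∀ W : List (Fin n), co Q W ≠ 0 → W.map b ∈ Ω)
    (ih : ∀ W : List (Fin n), W.length < r → co Q W = 0)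
    (hQ : ∀ e : List ℕ, e.length = r → co (PhiN ψ Q) (wordX e) = 0) :
    ∀ W : List (Fin n), W.length = r → co Q W = 0 := by
  classical
  intro W0 hW0
  set κ : List (Fin n) → ℚ := fun W => (W.map fun i => co (ψ i) (wordX [2 * b i])).prod with hκ
  have hκ0 : ∀ W, κ W ≠ 0 := by
    intro W
    rw [hκ]
    simp only
    apply List.prod_ne_zero
    intro h
    rw [List.mem_map] at h
    obtain ⟨i, _, hi⟩ := h
    exact hne i hi
  set S : Finset (List (Fin n)) := (Q.coeff.support.image FreeMonoid.toList).filter fun W => W.length = r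
    with hS
  -- the coefficients of `PhiN ψ Q`
  have hsum : ∀ e : List ℕ, e.length = r → ∑ W ∈ S, co Q W * κ W * c (W.map b) e = 0 := by
    intro e he
    have h1 : co (PhiN ψ Q) (wordX e) = 0 := hQ e he
    rw [Lead2.expand Q, map_sum, Lead2.co_sum] at h1
    rw [← h1, hS, sum_filter, sum_image (fun x _ y _ h => FreeMonoid.toList.injective h)]
    refine sum_congr rfl fun m hm => ?_
    rw [map_smul, co_smul, PhiN_wd]
    by_cases h2 : (FreeMonoid.toList m).length = r
    · rw [if_pos h2, evN_eq ψ b hb hL hhom (FreeMonoid.toList m) e (by rw [he, h2]), cR_rat]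
      ring
    · rw [if_neg h2]
      rcases Nat.lt_or_gt_of_ne h2 with h3 | h3
      · rw [ih _ h3, zero_mul]
      · have h4 : co (evN ψ (FreeMonoid.toList m)) (wordX e) = 0 := by
          by_contra h5
          have := evN_Dp ψ b hb hL hhom _ _ h5
          rw [wordX_count, he] at this
          omega
        rw [h4, mul_zero]
  by_cases hmem : W0 ∈ S
  · set lam : List ℕ → ℚ := fun w => ∑ W ∈ S, if W.map b = w then co Q W * κ W else 0 with hlam
    have h1 := hind r (S.image (List.map b)) (by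
      intro w hw
      rw [mem_image] at hw
      obtain ⟨W, hW, rfl⟩ := hw
      rw [hS, mem_filter] at hW
      refine ⟨by rw [List.length_map]; exact hW.2, ?_⟩
      obtain ⟨m, hm, hmW⟩ := mem_image.1 hW.1
      refine hsup W ?_
      rw [← hmW]
      exact Finsupp.mem_support_iff.1 hm) lam (by
      intro e he
      rw [← hsum e he, sum_image (fun x _ y _ h => List.map_injective_iff.mpr hbinj h)]
      refine sum_congr rfl fun W hW => ?_
      congr 1
      rw [hlam]
      simp only
      rw [sum_eq_single W]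
      · rw [if_pos rfl]
      · intro W' _ hne'
        rw [if_neg]
        exact fun h => hne' (List.map_injective_iff.mpr hbinj h)
      · exact fun h => absurd hW h)
    have h2 := h1 (W0.map b) (mem_image_of_mem _ hmem)
    rw [hlam] at h2
    simp only at h2
    rw [sum_eq_single W0] at h2
    · rw [if_pos rfl] at h2
      exact (mul_eq_zero.mp h2).resolve_right (hκ0 W0)
    · intro W' _ hne'
      rw [if_neg]
      exact fun h => hne' (List.map_injective_iff.mpr hbinj h)
    · exact fun h => absurd hmem h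
  · by_contra h
    apply hmem
    rw [hS, mem_filter]
    refine ⟨?_, hW0⟩
    rw [mem_image]
    refine ⟨FreeMonoid.ofList W0, ?_, rfl⟩
    rw [Finsupp.mem_support_iff]
    exact h

/-- **injectivity** -/
theorem injW (hbinj : Function.Injective b) {Ω : Set (List ℕ)} (hind : IndW Ω)
    (hne : ∀ i, co (ψ i) (wordX [2 * b i]) ≠ 0) (Q : Al (Fin n))
    (hsup : ∀ W : List (Fin n), co Q W ≠ 0 → W.map b ∈ Ω) (hQ : PhiN ψ Q = 0) : Q = 0 := by
  suffices h : ∀ r : ℕ, ∀ W : List (Fin n), W.length = r → co Q W = 0 by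
    exact al_ext fun W => by rw [h W.length W rfl, co_zero]
  intro r
  induction r using Nat.strong_induction_on with
  | _ r ih =>
    exact strictW ψ b hb hL hhom hbinj hind hne Q r hsup (fun W hW => ih _ hW W rfl)
      fun e _ => by rw [hQ, co_zero]

end

end Pool.Agent.D0H7.BK
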