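import Pool.Agent.D0H7.BK.Dim

/-!
# The depth graded quotients of a Lie algebra with generators in depth one (helper7)
-/

set_option autoImplicit false

namespace Pool.Agent.D0H7.BK

open Finset Pool.Agent.H777R4.DM
open Pool.Agent.N568.DSF (Dp Dp_psi s_count)

attribute [local instance 100] LieRing.ofAssociativeRing

/-- all words of `P` have length `N` -/
def Hm (N : ℕ) (P : A) : Prop := ∀ u, co P u ≠ 0 → u.length = N

lemma Hm.mul {a b : ℕ} {P Q : A} (hP : Hm a P) (hQ : Hm b Q) : Hm (a + b) (P * Q) := by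
  intro u hu
  obtain ⟨v, w, rfl, h1, h2⟩ := Lead2.co_mul_ne hu
  rw [List.length_append, hP v h1, hQ w h2]

lemma Hm.add {a : ℕ} {P Q : A} (hP : Hm a P) (hQ : Hm a Q) : Hm a (P + Q) := by
  intro u hu
  rw [co_add] at hu
  by_cases h : co P u = 0
  · exact hQ u (by rw [h, zero_add] at hu; exact hu)
  · exact hP u h

lemma Hm.sub {a : ℕ} {P Q : A} (hP : Hm a P) (hQ : Hm a Q) : Hm a (P - Q) := by
  intro u hu
  rw [co_sub] at hu
  by_cases h : co P u = 0
  · exact hQ u (by rw [h, zero_sub] at hu; exact neg_ne_zero.mp hu)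
  · exact hP u h

lemma Hm.wd (v : List (Fin 2)) : Hm v.length (Pool.Agent.H777R4.DM.wd v) := by
  intro u hu
  rw [co_wd] at hu
  split_ifs at hu with h
  · rw [h]
  · exact absurd rfl hu

lemma Hm.zero (a : ℕ) : Hm a (0 : A) := fun u hu => absurd (co_zero u) hu

lemma derW_len {f : A} {c : ℕ} (hf : Hm c f) : ∀ v : List (Fin 2), Hm (v.length + c) (derW f v)
  | [] => Hm.zero _
  | i :: v => by
      fin_cases i
      · show Hm (((0 : Fin 2) :: v).length + c) (derW f (0 :: v))
        rw [Pool.Agent.N568.DSF.derW_zero]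
        have := (Hm.wd [0]).mul (derW_len hf v)
        rw [List.length_cons]
        rw [show v.length + 1 + c = [(0 : Fin 2)].length + (v.length + c) by simp; omega]
        exact this
      · show Hm (((1 : Fin 2) :: v).length + c) (derW f (1 :: v))
        rw [Pool.Agent.N568.DSF.derW_one]
        have h1 := hf.mul (Hm.wd v)
        rw [add_comm] at h1
        have h2 := (Hm.wd [1]).mul (h1.add (derW_len hf v))
        have h3 := hf.mul (Hm.wd (1 :: v))
        rw [show [(1 : Fin 2)].length + (v.length + c) = ((1 : Fin 2) :: v).length + c by simp; omega] at h2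
        rw [add_comm] at h3
        exact h2.sub h3

lemma s_len {f g : A} {c d : ℕ} (hf : Hm c f) (hg : Hm d g) : Hm (c + d) (s f g) := by
  have h : s f g = ∑ m ∈ g.coeff.support, co g (FreeMonoid.toList m) • s f (wd (FreeMonoid.toList m)) := by
    conv_lhs => rw [Lead2.expand g]
    rw [map_sum]
    exact sum_congr rfl fun m _ => by rw [map_smul]
  intro u hu
  rw [h, Lead2.co_sum] at hu
  obtain ⟨m, _, hm⟩ := exists_ne_zero_of_sum_ne_zero hu
  rw [co_smul] at hm
  have h1 := hg _ (left_ne_zero_of_mul hm)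
  have h2 := right_ne_zero_of_mul hm
  rw [Pool.Agent.N568.DSF.s_wd] at h2
  have h4 := hf.mul (Hm.wd (FreeMonoid.toList m))
  have h5 := derW_len hf (FreeMonoid.toList m)
  rw [add_comm] at h5
  have h3 := (h4.add h5) u h2
  rw [h3, h1]

lemma ihara_s (f g : A) : ihara f g = s f g - s g f := by
  show f * g - g * f + der f g - der g f = (f * g + der f g) - (g * f + der g f)
  abel

lemma ihara_len {f g : A} {c d : ℕ} (hf : Hm c f) (hg : Hm d g) : Hm (c + d) (ihara f g) := by
  rw [ihara_s]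
  have h := s_len hg hf
  rw [add_comm] at h
  exact (s_len hf hg).sub h

lemma ihara_Dp {f g : A} {c d : ℕ} (hf : Dp c f) (hg : Dp d g) : Dp (c + d) (ihara f g) := by
  rw [ihara_s]
  have h := s_count hf hg
  rw [add_comm] at h
  exact h.sub (s_count hg hf)

section

variable (g : Submodule ℚ A) (hg : ∀ P ∈ g, ∀ Q ∈ g, ihara P Q ∈ g) (ψ : ℕ → A) (hψ : ∀ b, 1 ≤ b → ψ b ∈ g)
  (hL : ∀ b, 1 ≤ b → ψ b ∈ LieX) (hhom : ∀ b, 1 ≤ b → ∀ u, co (ψ b) u ≠ 0 → u.length = 2 * b + 1)

include hg hψ in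
lemma br_mem : ∀ u : List ℕ, (∀ x ∈ u, 1 ≤ x) → br ψ u ∈ g
  | [], _ => g.zero_mem
  | [b], h => hψ b (h b (List.mem_cons_self ..))
  | b :: b' :: u, h => hg _ (hψ b (h b (List.mem_cons_self ..))) _
      (br_mem (b' :: u) fun x hx => h x (List.mem_cons_of_mem _ hx))

include hhom in
lemma br_len : ∀ u : List ℕ, (∀ x ∈ u, 1 ≤ x) → Hm (2 * u.sum + u.length) (br ψ u)
  | [], _ => Hm.zero _
  | [b], h => by
      have e : 2 * [b].sum + [b].length = 2 * b + 1 := by simp
      rw [e]
      exact hhom b (h b (List.mem_cons_self ..))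
  | b :: b' :: u, h => by
      have h1 := br_len (b' :: u) fun x hx => h x (List.mem_cons_of_mem _ hx)
      have h2 : Hm (2 * b + 1) (ψ b) := hhom b (h b (List.mem_cons_self ..))
      have h3 := ihara_len h2 h1
      have e : 2 * (b :: b' :: u).sum + (b :: b' :: u).length = 2 * b + 1 + (2 * (b' :: u).sum + (b' :: u).length) := by
        rw [List.sum_cons, List.length_cons]
        omega
      rw [e]
      exact h3

include hL hhom in
lemma br_Dp : ∀ u : List ℕ, (∀ x ∈ u, 1 ≤ x) → Dp u.length (br ψ u)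
  | [], _ => Dp.zero _
  | [b], h => by
      have hb := h b (List.mem_cons_self ..)
      exact Dp_psi b hb (hL b hb) (hhom b hb)
  | b :: b' :: u, h => by
      have h1 := br_Dp (b' :: u) fun x hx => h x (List.mem_cons_of_mem _ hx)
      have hb := h b (List.mem_cons_self ..)
      have h3 := ihara_Dp (Dp_psi b hb (hL b hb) (hhom b hb)) h1
      have e : (b :: b' :: u).length = 1 + (b' :: u).length := by
        rw [List.length_cons]
        omega
      rw [e]
      exact h3

end

/-- the elements of `g` of weight `N` and depth `≥ r` -/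
def Fil (g : Submodule ℚ A) (r N : ℕ) : Submodule ℚ A where
  carrier := {P | P ∈ g ∧ ∀ u, co P u ≠ 0 → u.length = N ∧ r ≤ u.count 1}
  add_mem' := by
    rintro P Q ⟨h1, h2⟩ ⟨h3, h4⟩
    refine ⟨g.add_mem h1 h3, fun u hu => ?_⟩
    rw [co_add] at hu
    by_cases h : co P u = 0
    · exact h4 u (by rw [h, zero_add] at hu; exact hu)
    · exact h2 u h
  zero_mem' := ⟨g.zero_mem, fun u hu => absurd (co_zero u) hu⟩
  smul_mem' := by
    rintro c P ⟨h1, h2⟩
    refine ⟨g.smul_mem c h1, fun u hu => h2 u fun h' => hu ?_⟩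
    rw [co_smul, h', mul_zero]

lemma fin_Fil (g : Submodule ℚ A) (r N : ℕ) : FiniteDimensional ℚ (Fil g r N) := by
  have h1 : {u : List (Fin 2) | u.length = N}.Finite := List.finite_length_eq (Fin 2) N
  have h2 : FiniteDimensional ℚ (Submodule.span ℚ ((fun u : List (Fin 2) => (wd u : A)) '' {u | u.length = N})) :=
    FiniteDimensional.span_of_finite ℚ (h1.image _)
  refine Submodule.finiteDimensional_of_le (S₂ := Submodule.span ℚ
    ((fun u : List (Fin 2) => (wd u : A)) '' {u | u.length = N})) ?_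
  rintro P ⟨_, hP⟩
  rw [Lead2.expand P]
  refine Submodule.sum_mem _ fun m hm => ?_
  refine Submodule.smul_mem _ _ (Submodule.subset_span ⟨_, ?_, rfl⟩)
  have h3 : co P (FreeMonoid.toList m) ≠ 0 := Finsupp.mem_support_iff.1 hm
  exact (hP _ h3).1

/-- **the graded pieces** -/
theorem gr_count (g : Submodule ℚ A) (hg : ∀ P ∈ g, ∀ Q ∈ g, ihara P Q ∈ g)
    (h : ∀ b : ℕ, 1 ≤ b → ∃ f ∈ g, f ∈ LieX ∧ (∀ u, co f u ≠ 0 → u.length = 2 * b + 1) ∧
      co f (List.replicate (2 * b) 0 ++ [1]) ≠ 0) (M d n : ℕ) (hM : 1 ≤ M) :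
    (C M d n).card ≤ (d + 1) * Module.finrank ℚ
      (Fil g (d + 1) (2 * n + (d + 1)) ⧸ (Fil g (d + 2) (2 * n + (d + 1))).submoduleOf
        (Fil g (d + 1) (2 * n + (d + 1)))) := by
  classical
  choose f hf using h
  set ψ : ℕ → A := fun b => if hb : 1 ≤ b then f b hb else 0 with hψdef
  have hψ : ∀ b (hb : 1 ≤ b), ψ b = f b hb := fun b hb => dif_pos hb
  have hψg : ∀ b, 1 ≤ b → ψ b ∈ g := fun b hb => by rw [hψ b hb]; exact (hf b hb).1
  have hψL : ∀ b, 1 ≤ b → ψ b ∈ LieX := fun b hb => by rw [hψ b hb]; exact (hf b hb).2.1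
  have hψh : ∀ b, 1 ≤ b → ∀ u, co (ψ b) u ≠ 0 → u.length = 2 * b + 1 := fun b hb => by
    rw [hψ b hb]; exact (hf b hb).2.2.1
  have hψn : ∀ b, 1 ≤ b → co (ψ b) (wordX [2 * b]) ≠ 0 := fun b hb => by rw [hψ b hb]; exact (hf b hb).2.2.2
  refine (C_le M d n).trans (Nat.mul_le_mul_left _ ?_)
  have hlt : ∀ i, 1 ≤ lt M i := fun i => hM.trans (Nat.le_add_right _ _)
  have hlist : ∀ w : List (Fin (2 * M + 1)), ∀ x ∈ w.map (lt M), 1 ≤ x := by
    intro w x hx
    rw [List.mem_map] at hx
    obtain ⟨i, _, rfl⟩ := hx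
    exact hlt i
  set F := Fil g (d + 1) (2 * n + (d + 1)) with hF
  set F' := (Fil g (d + 2) (2 * n + (d + 1))).submoduleOf F with hF'
  have hlen : ∀ w : T M d n, w.1.length = d + 1 := by
    intro w
    obtain ⟨v, hv⟩ := ((mem_T M d n w.1).1 w.2).1
    rw [← hv, List.length_ofFn]
  have hmem : ∀ w : T M d n, br ψ (w.1.map (lt M)) ∈ F := by
    intro w
    have h1 := (mem_T M d n w.1).1 w.2
    refine ⟨br_mem g hg ψ hψg _ (hlist w.1), fun u hu => ?_⟩
    have h2 := br_len ψ hψh _ (hlist w.1) u hu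
    have h3 := br_Dp ψ hψL hψh _ (hlist w.1) u hu
    rw [h1.2.1, List.length_map, hlen] at h2
    rw [List.length_map, hlen] at h3
    exact ⟨h2, h3⟩
  have hfd : FiniteDimensional ℚ F := fin_Fil _ _ _
  -- independence modulo depth `d + 2`
  have hind : LinearIndependent ℚ (fun w : T M d n => F'.mkQ (⟨br ψ (w.1.map (lt M)), hmem w⟩ : F)) := by
    rw [linearIndependent_iff']
    intro s μ hμ i hi
    have h1 : F'.mkQ (∑ w ∈ s, μ w • (⟨br ψ (w.1.map (lt M)), hmem w⟩ : F)) = 0 := by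
      rw [map_sum, ← hμ]
      exact sum_congr rfl fun w _ => by rw [map_smul]
    rw [Submodule.mkQ_apply, Submodule.Quotient.mk_eq_zero, hF', Submodule.submoduleOf, Submodule.mem_comap] at h1
    set P : Al (Fin (2 * M + 1)) := ∑ w ∈ s, μ w • adw w.1 with hP
    have h2 : F.subtype (∑ w ∈ s, μ w • (⟨br ψ (w.1.map (lt M)), hmem w⟩ : F)) = PhiN (fun i => ψ (lt M i)) P := by
      rw [hP, map_sum, map_sum]
      refine sum_congr rfl fun w _ => ?_
      rw [map_smul, map_smul, Phi_adw ψ (lt M) w.1]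
      rfl
    rw [h2] at h1
    have hPw : ∀ W : List (Fin (2 * M + 1)), co P W = ∑ w ∈ s, μ w * co (adw w.1) W := by
      intro W
      rw [hP, Lead2.co_sum]
      exact sum_congr rfl fun w _ => by rw [co_smul]
    have hlow : ∀ W : List (Fin (2 * M + 1)), W.length < d + 1 → co P W = 0 := by
      intro W hW
      rw [hPw]
      refine sum_eq_zero fun w _ => ?_
      have : co (adw w.1) W = 0 := by
        by_contra hne
        have := (adw_perm _ _ hne).length_eq
        rw [hlen] at this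
        omega
      rw [this, mul_zero]
    have hvan : ∀ e : List ℕ, e.length = d + 1 → co (PhiN (fun i => ψ (lt M i)) P) (wordX e) = 0 := by
      intro e he
      by_contra hne
      have := (h1.2 _ hne).2
      rw [wordX_count, he] at this
      omega
    have h3 := strict (fun i => ψ (lt M i)) (lt M) hlt (fun i => hψL _ (hlt i)) (fun i => hψh _ (hlt i)) (lt_inj M)
      (ind_lt M) (fun i => hψn _ (hlt i)) P (d + 1) hlow hvan i.1 (hlen i)
    rw [hPw, sum_eq_single i] at h3
    · rw [co_adw_ML (lt M) (lt_inj M) i.1 i.1 ((mem_T M d n i.1).1 i.2).2.2 ((mem_T M d n i.1).1 i.2).2.2, if_pos rfl,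
        mul_one] at h3
      exact h3
    · intro j _ hj
      rw [co_adw_ML (lt M) (lt_inj M) j.1 i.1 ((mem_T M d n j.1).1 j.2).2.2 ((mem_T M d n i.1).1 i.2).2.2, if_neg,
        mul_zero]
      exact fun h => hj (Subtype.ext h)
    · exact fun h => absurd hi h
  have h2 := hind.fintype_card_le_finrank
  rwa [Fintype.card_coe] at h2

/-- **the graded pieces, closed form** -/
theorem gr_closed (g : Submodule ℚ A) (hg : ∀ P ∈ g, ∀ Q ∈ g, ihara P Q ∈ g)
    (h : ∀ b : ℕ, 1 ≤ b → ∃ f ∈ g, f ∈ LieX ∧ (∀ u, co f u ≠ 0 → u.length = 2 * b + 1) ∧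
      co f (List.replicate (2 * b) 0 ++ [1]) ≠ 0) (r n : ℕ) (hr : 2 ≤ r) :
    ((n + r - 1) / (2 * r)) ^ (r - 1) ≤ r * Module.finrank ℚ
      (Fil g r (2 * n + r) ⧸ (Fil g (r + 1) (2 * n + r)).submoduleOf (Fil g r (2 * n + r))) := by
  obtain ⟨d, rfl⟩ : ∃ d, r = d + 1 := ⟨r - 1, by omega⟩
  set m := (n + (d + 1) - 1) / (2 * (d + 1)) with hm
  rw [Nat.add_sub_cancel]
  rcases Nat.eq_zero_or_pos m with h0 | h0
  · rw [h0, zero_pow (by omega)]
    exact Nat.zero_le _
  · have hn : 1 ≤ n := by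
      by_contra hn
      have : n = 0 := by omega
      subst this
      have : m = 0 := by
        rw [hm]
        exact Nat.div_eq_of_lt (by omega)
      omega
    have h1 : m = ((n - 1) / (d + 1) + 1) / 2 := by
      have h2 : (n - 1) / (d + 1) + 1 = (n - 1 + (d + 1)) / (d + 1) := (Nat.add_div_right _ (by omega)).symm
      rw [hm, h2, Nat.div_div_eq_div_mul, Nat.mul_comm (d + 1) 2]
      congr 1
      omega
    have h2 : 2 * m ≤ (n - 1) / (d + 1) + 1 := by omega
    refine (C_ge d n m ((n - 1) / (d + 1) + 1 - m) hn h0 (by omega) h2).trans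
      (gr_count g hg h _ d n (by omega))

end Pool.Agent.D0H7.BK
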