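import Pool.Agent.D0H7.BK.Fin

/-!
# Words with increasing digit sums (helper7)
-/

set_option autoImplicit false

namespace Pool.Agent.D0H7.BK

open Finset
open Pool.Agent.N568.BK (AR cR cR_map cR_rat c)

/-- a rank function: if `p` does not divide `binom(2b, 2b')`, `b' ≠ b`, then `b'` has a smaller rank than `b` -/
def Rk (p : ℕ) (B : Set ℕ) (κ : ℕ → ℕ) : Prop :=
  ∀ b ∈ B, ∀ b' ∈ B, b' ≠ b → ¬ p ∣ (2 * b).choose (2 * b') → κ b' < κ b

/-- the rank increases weakly -/
def Up (κ : ℕ → ℕ) (w : List ℕ) : Prop := w.Pairwise fun a b => κ a ≤ κ b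

section

variable {p : ℕ} {R : Type} [CommRing R] [CharP R p] {B : Set ℕ} {κ : ℕ → ℕ}

/-- one step, at a word at which `binom(2b, 2x)` is `1` for `x = b` and `0` otherwise -/
theorem AR_at (b : ℕ) : ∀ (v : List ℕ) (k : ℕ) (g : List ℕ → R),
    (∀ x ∈ k :: v, ((2 * b).choose (2 * x) : R) = if x = b then 1 else 0) →
    AR b g (2 * k :: v.map (2 * ·)) = if k = b then g (v.map (2 * ·)) else 0
  | [], k, g, _ => by
      simp only [List.map_nil]
      unfold AR
      by_cases h : k = b
      · rw [if_pos (by rw [h]), if_pos h]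
      · rw [if_neg (by omega), if_neg h]
  | l :: v, k, g, h => by
      rw [List.map_cons]
      have h1 : AR b g (2 * k :: 2 * l :: v.map (2 * ·)) =
          AR b (fun e' => g (2 * k :: e')) (2 * l :: v.map (2 * ·)) +
          if 2 * b ≤ 2 * k + 2 * l then
            ((-1) ^ (2 * k) * ((2 * b).choose (2 * k) : R) - (-1) ^ (2 * l) * ((2 * b).choose (2 * l) : R)) *
              g ((2 * k + 2 * l - 2 * b) :: v.map (2 * ·))
          else 0 := rfl
      rw [h1, AR_at b v l (fun e' => g (2 * k :: e')) (fun x hx => h x (List.mem_cons_of_mem _ hx)),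
        h k (List.mem_cons_self ..), h l (List.mem_cons_of_mem _ (List.mem_cons_self ..))]
      have e1 : ((-1 : R)) ^ (2 * k) = 1 := by rw [pow_mul]; norm_num
      have e2 : ((-1 : R)) ^ (2 * l) = 1 := by rw [pow_mul]; norm_num
      rw [e1, e2]
      by_cases hkb : k = b
      · by_cases hlb : l = b
        · subst hkb hlb
          simp
        · subst hkb
          rw [if_neg hlb, if_pos rfl, if_neg hlb, if_pos (by omega), if_pos rfl]
          have : 2 * k + 2 * l - 2 * k = 2 * l := by omega
          rw [this]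
          ring
      · by_cases hlb : l = b
        · subst hlb
          rw [if_pos rfl, if_neg hkb, if_pos rfl, if_pos (by omega), if_neg hkb]
          have : 2 * k + 2 * l - 2 * l = 2 * k := by omega
          rw [this]
          ring
        · rw [if_neg hlb, if_neg hkb, if_neg hlb]
          simp [hkb]

/-- all terms of one step vanish -/
theorem AR_van (b : ℕ) : ∀ (v : List ℕ) (k : ℕ) (g : List ℕ → R),
    (∀ x ∈ k :: v, ((2 * b).choose (2 * x) : R) = 0) → AR b g (2 * k :: v.map (2 * ·)) = 0
  | [], k, g, h => by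
      simp only [List.map_nil]
      unfold AR
      by_cases h1 : k = b
      · subst h1
        have h2 := h k (List.mem_cons_self ..)
        rw [Nat.choose_self, Nat.cast_one] at h2
        rw [if_pos rfl, ← one_mul (g []), h2, zero_mul]
      · rw [if_neg (by omega)]
  | l :: v, k, g, h => by
      rw [List.map_cons]
      have h1 : AR b g (2 * k :: 2 * l :: v.map (2 * ·)) =
          AR b (fun e' => g (2 * k :: e')) (2 * l :: v.map (2 * ·)) +
          if 2 * b ≤ 2 * k + 2 * l then
            ((-1) ^ (2 * k) * ((2 * b).choose (2 * k) : R) - (-1) ^ (2 * l) * ((2 * b).choose (2 * l) : R)) *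
              g ((2 * k + 2 * l - 2 * b) :: v.map (2 * ·))
          else 0 := rfl
      rw [h1, AR_van b v l (fun e' => g (2 * k :: e')) (fun x hx => h x (List.mem_cons_of_mem _ hx)),
        h k (List.mem_cons_self ..), h l (List.mem_cons_of_mem _ (List.mem_cons_self ..))]
      simp

/-- the matrix is triangular -/
theorem cR_up (hR : Rk p B κ) : ∀ (w v : List ℕ), v.length = w.length → (∀ x ∈ w, x ∈ B) → (∀ x ∈ v, x ∈ B) →
    Up κ w → Up κ v → cR R w (v.map (2 * ·)) = (if w = v then 1 else 0) ∨ v.map κ < w.map κ
  | [], v, hl, _, _, _, _ => by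
      have : v = [] := by simpa using hl
      subst this
      left
      simp [cR]
  | b :: w, [], hl, _, _, _, _ => by simp at hl
  | b :: w, k :: v, hl, hw, hv, hwu, hvu => by
      have hl' : v.length = w.length := by simpa using hl
      have hb : b ∈ B := hw b (List.mem_cons_self ..)
      have h1 : cR R (b :: w) ((k :: v).map (2 * ·)) = AR b (cR R w) (2 * k :: v.map (2 * ·)) := rfl
      have hge : ∀ x ∈ k :: v, κ k ≤ κ x := by
        intro x hx
        rcases List.mem_cons.1 hx with rfl | hx
        · exact le_rfl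
        · exact (List.pairwise_cons.1 hvu).1 x hx
      rcases lt_trichotomy (κ k) (κ b) with h | h | h
      · right
        rw [List.map_cons, List.map_cons]
        exact List.cons_lt_cons_iff.2 (Or.inl h)
      · have h2 : ∀ x ∈ k :: v, ((2 * b).choose (2 * x) : R) = if x = b then 1 else 0 := by
          intro x hx
          by_cases hxb : x = b
          · rw [if_pos hxb, hxb, Nat.choose_self, Nat.cast_one]
          · rw [if_neg hxb]
            by_contra hne
            have h3 := hR b hb x (hv x hx) hxb fun hd => hne ((CharP.cast_eq_zero_iff R p _).2 hd)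
            have := hge x hx
            omega
        rw [h1, AR_at b v k _ h2]
        by_cases hkb : k = b
        · subst hkb
          rw [if_pos rfl]
          rcases cR_up hR w v hl' (fun x hx => hw x (List.mem_cons_of_mem _ hx))
            (fun x hx => hv x (List.mem_cons_of_mem _ hx)) (List.pairwise_cons.1 hwu).2 (List.pairwise_cons.1 hvu).2
            with h3 | h3
          · left
            rw [h3]
            by_cases h4 : w = v
            · rw [if_pos h4, if_pos (by rw [h4])]
            · rw [if_neg h4, if_neg (by simpa using h4)]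
          · right
            rw [List.map_cons, List.map_cons]
            exact List.cons_lt_cons_iff.2 (Or.inr ⟨rfl, h3⟩)
        · left
          rw [if_neg hkb, if_neg]
          intro h3
          rw [List.cons.injEq] at h3
          exact hkb h3.1.symm
      · left
        rw [h1, AR_van b v k _ (fun x hx => by
          by_contra hne
          have h4 := hge x hx
          by_cases hxb : x = b
          · rw [hxb] at h4
            omega
          · have h3 := hR b hb x (hv x hx) hxb fun hd => hne ((CharP.cast_eq_zero_iff R p _).2 hd)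
            omega), if_neg]
        intro h3
        rw [List.cons.injEq] at h3
        rw [h3.1] at h
        omega

end

/-- the words whose rank increases weakly are independent -/
theorem indep_up {p : ℕ} (hp : p.Prime) {B : Set ℕ} {κ : ℕ → ℕ} (hR : Rk p B κ) (r : ℕ) (F : Finset (List ℕ))
    (hF : ∀ w ∈ F, w.length = r ∧ (∀ x ∈ w, x ∈ B) ∧ Up κ w) (lam : List ℕ → ℚ)
    (h : ∀ w ∈ F, ∑ w' ∈ F, lam w' * c w' (w.map (2 * ·)) = 0) : ∀ w ∈ F, lam w = 0 := by
  classical
  have : Fact p.Prime := ⟨hp⟩
  set M : Matrix F F ℤ := fun w' w => cR ℤ w'.1 (w.1.map (2 * ·)) with hM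
  have hdet : M.det ≠ 0 := by
    intro h0
    have h1 : (Int.castRingHom (ZMod p)) M.det = 0 := by rw [h0, map_zero]
    rw [RingHom.map_det] at h1
    obtain ⟨x, hx0, hx⟩ := Matrix.exists_vecMul_eq_zero_iff.2 h1
    apply hx0
    by_contra _
    -- the largest key in the support
    have hne : (univ.filter fun w : F => x w ≠ 0).Nonempty := by
      obtain ⟨w, hw⟩ := Function.ne_iff.1 hx0
      exact ⟨w, mem_filter.2 ⟨mem_univ _, hw⟩⟩
    obtain ⟨w0, hw0, hmax⟩ := exists_max_image _ (fun w : F => w.1.map κ) hne
    have h2 := congrFun hx w0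
    have h2 : ∑ i, x i * (Int.castRingHom (ZMod p)).mapMatrix M i w0 = 0 := h2
    rw [sum_eq_single w0] at h2
    · have h3 : (Int.castRingHom (ZMod p)).mapMatrix M w0 w0 = 1 := by
        rw [RingHom.mapMatrix_apply, Matrix.map_apply, hM]
        rw [cR_map (Int.castRingHom (ZMod p))]
        rcases cR_up (R := ZMod p) hR w0.1 w0.1 rfl (hF _ w0.2).2.1 (hF _ w0.2).2.1 (hF _ w0.2).2.2 (hF _ w0.2).2.2
          with h4 | h4
        · rw [h4, if_pos rfl]
        · exact absurd h4 (lt_irrefl _)
      rw [h3, mul_one] at h2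
      exact (mem_filter.1 hw0).2 h2
    · intro w _ hw
      by_cases hxw : x w = 0
      · rw [hxw, zero_mul]
      · have h3 : (Int.castRingHom (ZMod p)).mapMatrix M w w0 = 0 := by
          rw [RingHom.mapMatrix_apply, Matrix.map_apply, hM]
          rw [cR_map (Int.castRingHom (ZMod p))]
          rcases cR_up (R := ZMod p) hR w.1 w0.1 ((hF _ w0.2).1.trans (hF _ w.2).1.symm) (hF _ w.2).2.1
            (hF _ w0.2).2.1 (hF _ w.2).2.2 (hF _ w0.2).2.2 with h4 | h4
          · rw [h4, if_neg (fun h => hw (Subtype.ext h))]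
          · exact absurd (hmax w (mem_filter.2 ⟨mem_univ _, hxw⟩)) (not_le.2 h4)
        rw [h3, mul_zero]
    · exact fun h => absurd (mem_univ _) h
  have hdet' : ((Int.castRingHom ℚ).mapMatrix M).det ≠ 0 := by
    rw [← RingHom.map_det]
    simpa using hdet
  have h3 := Matrix.eq_zero_of_vecMul_eq_zero hdet' (v := fun w => lam w.1) (by
    funext w
    have h4 := h w.1 w.2
    rw [← Finset.sum_attach] at h4
    rw [Matrix.vecMul, Pi.zero_apply]
    refine Eq.trans ?_ h4
    unfold dotProduct
    rw [← Finset.attach_eq_univ]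
    refine Finset.sum_congr rfl fun w' _ => ?_
    congr 1
    show (Int.castRingHom ℚ) (cR ℤ w'.1 (w.1.map (2 * ·))) = _
    rw [cR_map (Int.castRingHom ℚ), cR_rat])
  intro w hw
  exact congrFun h3 ⟨w, hw⟩

/-- the digit sum is a rank function -/
theorem rk_digits {p : ℕ} (hp : p.Prime) (B : Set ℕ) : Rk p B fun b => (Nat.digits p (2 * b)).sum := by
  have : Fact p.Prime := ⟨hp⟩
  intro b _ b' _ hne hnd
  rcases Nat.lt_or_ge (2 * b) (2 * b') with h | h
  · rw [Nat.choose_eq_zero_of_lt h] at hnd
    exact absurd (dvd_zero _) hnd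
  · have h3 := sub_one_mul_padicValNat_choose_eq_sub_sum_digits (p := p) h
    rw [padicValNat.eq_zero_of_not_dvd hnd, mul_zero] at h3
    have h4 : (Nat.digits p (2 * b - 2 * b')).sum ≠ 0 := by
      intro h0
      have h5 : ∀ x ∈ Nat.digits p (2 * b - 2 * b'), x = 0 := fun x hx =>
        Nat.eq_zero_of_le_zero (h0 ▸ List.le_sum_of_mem hx)
      exact Nat.getLast_digit_ne_zero p (show 2 * b - 2 * b' ≠ 0 by omega) (h5 _ (List.getLast_mem _))
    have h5 := Nat.digit_sum_le p (2 * b)
    show (Nat.digits p (2 * b')).sum < (Nat.digits p (2 * b)).sum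
    omega

end Pool.Agent.D0H7.BK
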