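import Pool.Agent.D0H7.BK.Gen
import Pool.Agent.H777R4.DM.LS1

/-!
# Iterated brackets whose last letter is the largest (helper7)
-/

set_option autoImplicit false

namespace Pool.Agent.D0H7.BK

open Finset Pool.Agent.H777R4.DM

attribute [local instance 100] LieRing.ofAssociativeRing

section

variable {α : Type} [DecidableEq α]

lemma co_lmul (i j : α) (v : List α) (P : Al α) : co (wd [i] * P) (j :: v) = if i = j then co P v else 0 := by
  induction P using al_induction with
  | h1 u =>
    rw [wd_mul, co_wd, co_wd]
    by_cases h : i = j
    · simp [h]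
    · simp [h]
  | h2 P Q hP hQ =>
    rw [mul_add, co_add, hP, hQ, co_add]
    split_ifs <;> simp
  | h3 c P hP =>
    rw [mul_smul_comm, co_smul, hP, co_smul]
    split_ifs <;> simp

lemma co_lmul_nil (i : α) (P : Al α) : co (wd [i] * P) [] = 0 := by
  induction P using al_induction with
  | h1 u =>
    rw [wd_mul, co_wd, if_neg (by simp)]
  | h2 P Q hP hQ => rw [mul_add, co_add, hP, hQ, add_zero]
  | h3 c P hP => rw [mul_smul_comm, co_smul, hP, mul_zero]

lemma co_rmul (i j : α) (v : List α) (P : Al α) : co (P * wd [i]) (v ++ [j]) = if i = j then co P v else 0 := by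
  induction P using al_induction with
  | h1 u =>
    rw [wd_mul, co_wd, co_wd]
    by_cases h : i = j
    · subst h
      simp
    · rw [if_neg h, if_neg]
      intro h1
      have := List.append_inj' h1 rfl
      exact h (by simpa using this.2)
  | h2 P Q hP hQ =>
    rw [add_mul, co_add, hP, hQ, co_add]
    split_ifs <;> simp
  | h3 c P hP =>
    rw [smul_mul_assoc, co_smul, hP, co_smul]
    split_ifs <;> simp

lemma co_rmul_nil (i : α) (P : Al α) : co (P * wd [i]) [] = 0 := by
  induction P using al_induction with
  | h1 u =>
    rw [wd_mul, co_wd, if_neg (by simp)]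
  | h2 P Q hP hQ => rw [add_mul, co_add, hP, hQ, add_zero]
  | h3 c P hP => rw [smul_mul_assoc, co_smul, hP, mul_zero]

/-- the iterated commutator -/
noncomputable def adw : List α → Al α
  | [] => 0
  | [i] => wd [i]
  | i :: j :: w => wd [i] * adw (j :: w) - adw (j :: w) * wd [i]

omit [DecidableEq α] in
lemma adw_cons (i : α) (w : List α) (h : w ≠ []) : adw (i :: w) = wd [i] * adw w - adw w * wd [i] := by
  rcases w with _ | ⟨j, w⟩
  · exact absurd rfl h
  · rfl

lemma adw_perm : ∀ (w v : List α), co (adw w) v ≠ 0 → v.Perm w
  | [], v, h => by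
      unfold adw at h
      exact absurd (co_zero v) h
  | [i], v, h => by
      unfold adw at h
      rw [co_wd] at h
      split_ifs at h with h1
      · rw [h1]
      · exact absurd rfl h
  | i :: j :: w, v, h => by
      unfold adw at h
      rw [co_sub] at h
      by_cases h1 : co (wd [i] * adw (j :: w)) v = 0
      · have h2 : co (adw (j :: w) * wd [i]) v ≠ 0 := by
          intro h2
          rw [h1, h2, sub_zero] at h
          exact h rfl
        rcases List.eq_nil_or_concat v with rfl | ⟨v', k, rfl⟩
        · exact absurd (co_rmul_nil _ _) h2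
        · rw [List.concat_eq_append] at h2 ⊢
          rw [co_rmul] at h2
          split_ifs at h2 with h3
          · have := adw_perm (j :: w) v' h2
            rw [← h3]
            exact (List.perm_append_comm).trans (this.cons i)
          · exact absurd rfl h2
      · rcases v with _ | ⟨k, v'⟩
        · exact absurd (co_lmul_nil _ _) h1
        · rw [co_lmul] at h1
          split_ifs at h1 with h3
          · rw [← h3]
            exact (adw_perm (j :: w) v' h1).cons i
          · exact absurd rfl h1

lemma adw_last (β : α) : ∀ (u v : List α), β ∉ u → co (adw (u ++ [β])) (v ++ [β]) = if u = v then 1 else 0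
  | [], v, _ => by
      show co (wd [β]) (v ++ [β]) = _
      rw [co_wd]
      by_cases h : v = []
      · subst h
        simp
      · rw [if_neg, if_neg (Ne.symm h)]
        intro h1
        have := congrArg List.length h1
        simp at this
        exact h this
  | i :: u, v, h => by
      have hi : i ≠ β := fun h1 => h (by rw [h1]; exact List.mem_cons_self ..)
      have hu : β ∉ u := fun h1 => h (List.mem_cons_of_mem _ h1)
      rw [List.cons_append, adw_cons i (u ++ [β]) (by simp), co_sub, co_rmul, if_neg hi, sub_zero]
      rcases v with _ | ⟨j, v⟩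
      · rw [List.nil_append, co_lmul, if_neg hi, if_neg (by simp)]
      · rw [List.cons_append, co_lmul, adw_last β u v hu]
        by_cases h1 : i = j
        · subst h1
          simp
        · rw [if_neg h1, if_neg]
          intro h2
          rw [List.cons.injEq] at h2
          exact h1 h2.1

end

/-- the last letter is larger than the others -/
def ML (w : List ℕ) : Prop := ∃ (u : List ℕ) (β : ℕ), w = u ++ [β] ∧ ∀ x ∈ u, x < β

/-- the matrix of the brackets is the identity at the words whose last letter is the largest -/
lemma co_adw_ML {n : ℕ} (b : Fin n → ℕ) (hb : Function.Injective b) (w v : List (Fin n)) (hw : ML (w.map b))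
    (hv : ML (v.map b)) : co (adw w) v = if w = v then 1 else 0 := by
  obtain ⟨u, β, hu, hβ⟩ := hw
  obtain ⟨u', β', hu', hβ'⟩ := hv
  rcases List.eq_nil_or_concat w with rfl | ⟨w', i, rfl⟩
  · simp at hu
  rcases List.eq_nil_or_concat v with rfl | ⟨v', j, rfl⟩
  · simp at hu'
  rw [List.concat_eq_append] at hu hu' ⊢
  rw [List.concat_eq_append]
  rw [List.map_append, List.map_singleton] at hu hu'
  obtain ⟨h1, h2⟩ := List.append_inj' hu rfl
  obtain ⟨h3, h4⟩ := List.append_inj' hu' rfl
  have h5 : b i = β := by simpa using h2
  have h6 : b j = β' := by simpa using h4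
  by_cases h0 : co (adw (w' ++ [i])) (v' ++ [j]) = 0
  · rw [h0, if_neg]
    intro h7
    rw [← h7, adw_last i w' w' (by
      intro hi
      have := hβ (b i) (by rw [← h1]; exact List.mem_map_of_mem hi)
      omega), if_pos rfl] at h0
    exact one_ne_zero h0
  · have hp := adw_perm _ _ h0
    have h7 : i = j := by
      apply hb
      have hi : i ∈ v' ++ [j] := hp.mem_iff.2 (by simp)
      have hj : j ∈ w' ++ [i] := hp.mem_iff.1 (by simp)
      rw [List.mem_append, List.mem_singleton] at hi hj
      have e1 : b i ≤ b j := by
        rcases hi with hi | hi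
        · have := hβ' (b i) (by rw [← h3]; exact List.mem_map_of_mem hi)
          omega
        · rw [hi]
      have e2 : b j ≤ b i := by
        rcases hj with hj | hj
        · have := hβ (b j) (by rw [← h1]; exact List.mem_map_of_mem hj)
          omega
        · rw [hj]
      omega
    subst h7
    rw [adw_last i w' v' (by
      intro hi
      have := hβ (b i) (by rw [← h1]; exact List.mem_map_of_mem hi)
      omega)]
    by_cases h8 : w' = v'
    · rw [if_pos h8, if_pos (by rw [h8])]
    · rw [if_neg h8, if_neg]
      intro h9
      exact h8 (List.append_inj' h9 rfl).1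

lemma adw_mem {n : ℕ} : ∀ w : List (Fin n), adw w ∈ LieN n
  | [] => (LieN n).zero_mem
  | [i] => LieSubalgebra.subset_lieSpan ⟨i, rfl⟩
  | i :: j :: w => by
      have h1 := adw_mem (j :: w)
      have h2 : wd [i] ∈ LieN n := LieSubalgebra.subset_lieSpan ⟨i, rfl⟩
      have h3 := (LieN n).lie_mem h2 h1
      rw [LieRing.of_associative_ring_bracket] at h3
      exact h3

/-- the iterated Ihara bracket -/
noncomputable def br (f : ℕ → A) : List ℕ → A
  | [] => 0
  | [b] => f b
  | b :: b' :: u => ihara (f b) (br f (b' :: u))

lemma Phi_adw {n : ℕ} (f : ℕ → A) (b : Fin n → ℕ) : ∀ w : List (Fin n),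
    PhiN (fun i => f (b i)) (adw w) = br f (w.map b)
  | [] => by
      unfold adw
      rw [map_zero]
      rfl
  | [i] => (Pool.Agent.H358R3.DM.taskFinalN n (fun i => f (b i))).1 i
  | i :: j :: w => by
      have h1 := (Pool.Agent.H358R3.DM.taskFinalN n (fun i => f (b i))).2 (wd [i])
        (LieSubalgebra.subset_lieSpan ⟨i, rfl⟩) (adw (j :: w)) (adw_mem _)
      have h2 : adw (i :: j :: w) = wd [i] * adw (j :: w) - adw (j :: w) * wd [i] := rfl
      rw [h2, h1, (Pool.Agent.H358R3.DM.taskFinalN n (fun i => f (b i))).1 i, Phi_adw f b (j :: w)]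
      rfl

end Pool.Agent.D0H7.BK
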