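import Pool.Agent.D0H7.BK.Win

/-!
# Few letters (helper7)

In a ring in which `(y j - y (j+1)) ^ (2 M + 1) = 0` for all `j` the product of letters `≥ M` is the first monomial.
-/

set_option autoImplicit false

namespace Pool.Agent.D0H7.BK

open Finset
open Pool.Agent.N568.BK (c wd comp word om tl vec P P_add P_smul P_zero word_eq wd_eq)

section

variable {R : Type} [CommRing R]

lemma wR_dvd (t : R) : ∀ (u : List ℕ) (y z : ℕ → R), (∀ i, t ∣ y i - z i) → t ∣ wR u y - wR u z
  | [], y, z, _ => by simp [wR]
  | b :: u, y, z, h => by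
      unfold wR
      have hmul : ∀ a b c d : R, t ∣ a - c → t ∣ b - d → t ∣ a * b - c * d := by
        intro a b c d h1 h2
        have e : a * b - c * d = (a - c) * b + c * (b - d) := by ring
        rw [e]
        exact dvd_add (h1.mul_right _) (h2.mul_left _)
      have hpow : ∀ (a c : R) (m : ℕ), t ∣ a - c → t ∣ a ^ m - c ^ m := fun a c m h1 =>
        h1.trans (sub_dvd_pow_sub_pow a c m)
      rw [add_sub_add_comm, ← sum_sub_distrib]
      refine dvd_add (hmul _ _ _ _ (hpow _ _ _ (h _)) (wR_dvd t u y z h)) (dvd_sum fun j _ => ?_)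
      refine hmul _ _ _ _ (hpow _ _ _ ?_) ?_
      · have e : y j - y (j + 1) - (z j - z (j + 1)) = (y j - z j) - (y (j + 1) - z (j + 1)) := by ring
        rw [e]
        exact dvd_sub (h _) (h _)
      · rw [sub_sub_sub_comm]
        exact dvd_sub (wR_dvd t u _ _ fun i => h _) (wR_dvd t u _ _ fun i => h _)

/-- **the words are monomials** -/
theorem nil (M : ℕ) : ∀ (u : List ℕ) (y : ℕ → R), (∀ x ∈ u, M ≤ x) →
    (∀ j, (y j - y (j + 1)) ^ (2 * M + 1) = 0) → wR u y = mo u y
  | [], y, _, _ => rfl
  | b :: u, y, hu, h => by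
      have hu' : ∀ x ∈ u, M ≤ x := fun x hx => hu x (List.mem_cons_of_mem _ hx)
      have hb : M ≤ b := hu b (List.mem_cons_self ..)
      unfold wR mo
      rw [nil M u y hu' h]
      rw [sum_eq_zero, add_zero]
      intro j _
      have h1 : y j - y (j + 1) ∣ wR u (fun i => y (sk j i)) - wR u (fun i => y (sk (j + 1) i)) := by
        refine wR_dvd _ u _ _ fun i => ?_
        unfold sk
        by_cases h1 : i < j
        · rw [if_pos h1, if_pos (by omega), sub_self]
          exact dvd_zero _
        · by_cases h2 : i = j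
          · subst h2
            rw [if_neg (by omega), if_pos (by omega)]
            have e : y (i + 1) - y i = -(y i - y (i + 1)) := by ring
            rw [e]
            exact (dvd_refl _).neg_right
          · rw [if_neg h1, if_neg (by omega), sub_self]
            exact dvd_zero _
      obtain ⟨q, hq⟩ := h1
      rw [hq]
      have e : (y j - y (j + 1)) ^ (2 * b) * ((y j - y (j + 1)) * q) =
          (y j - y (j + 1)) ^ (2 * M + 1) * ((y j - y (j + 1)) ^ (2 * b - 2 * M) * q) := by
        rw [← mul_assoc, ← mul_assoc, ← pow_succ, ← pow_add]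
        congr 2
        omega
      rw [e, h j, zero_mul]

end

/-! ### few powers -/

open Polynomial in
/-- few powers of `X` are independent modulo `(X - y) ^ N` -/
theorem few {R : Type} [CommRing R] [Algebra ℚ R] (y : R) : ∀ (N : ℕ) (A : Finset ℕ) (v : ℕ → R), A.card ≤ N →
    (X - C y) ^ N ∣ ∑ a ∈ A, C (v a) * X ^ a → ∀ a ∈ A, v a * y ^ a = 0 := by
  intro N
  induction N with
  | zero =>
    intro A v hA _ a ha
    have : A = ∅ := card_eq_zero.1 (by omega)
    rw [this] at ha
    exact absurd ha (notMem_empty _)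
  | succ N ih =>
    intro A v hA hd
    rcases A.eq_empty_or_nonempty with rfl | ⟨a₁, ha₁⟩
    · intro a ha
      exact absurd ha (notMem_empty _)
    have h1 : ∀ a ∈ A.erase a₁, v a * y ^ a = 0 := by
      intro a ha
      have h2 := ih (A.erase a₁) (fun a => ((a : R) - (a₁ : R)) * v a) (by
        rw [card_erase_of_mem ha₁]
        omega) (by
        obtain ⟨g, hg⟩ := hd
        have e : ∑ a ∈ A.erase a₁, C (((a : R) - (a₁ : R)) * v a) * X ^ a =
            X * derivative (∑ a ∈ A, C (v a) * X ^ a) - C (a₁ : R) * ∑ a ∈ A, C (v a) * X ^ a := by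
          rw [derivative_sum, mul_sum, mul_sum, ← sum_sub_distrib, ← add_sum_erase _ _ ha₁]
          have e1 : ∀ a : ℕ, X * derivative (C (v a) * X ^ a) - C (a₁ : R) * (C (v a) * X ^ a) =
              C (((a : R) - (a₁ : R)) * v a) * X ^ a := by
            intro a
            rw [derivative_C_mul_X_pow]
            rcases a with _ | a
            · simp
            · rw [Nat.add_sub_cancel, map_mul, map_mul, map_sub]
              rw [pow_succ]
              ring
          rw [e1, sub_self, zero_mul, map_zero, zero_mul, zero_add]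
          exact sum_congr rfl fun a _ => (e1 a).symm
        rw [e, hg]
        refine dvd_sub (dvd_mul_of_dvd_right ?_ _) (dvd_mul_of_dvd_right ?_ _)
        · rw [derivative_mul, derivative_X_sub_C_pow, Nat.add_sub_cancel]
          refine dvd_add ?_ ?_
          · exact ((dvd_refl _).mul_left _).mul_right _
          · exact (pow_dvd_pow _ (by omega)).mul_right _
        · exact (pow_dvd_pow _ (by omega)).mul_right _) a ha
      have h3 : ((a : ℚ) - (a₁ : ℚ)) ≠ 0 := by
        rw [sub_ne_zero]
        exact_mod_cast (mem_erase.1 ha).1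
      have h4 : algebraMap ℚ R ((a : ℚ) - (a₁ : ℚ)) * (v a * y ^ a) = 0 := by
        rw [map_sub, map_natCast, map_natCast, ← mul_assoc]
        exact h2
      have h5 : IsUnit (algebraMap ℚ R ((a : ℚ) - (a₁ : ℚ))) := (IsUnit.mk0 _ h3).map _
      exact (h5.mul_right_eq_zero).1 h4
    intro a ha
    by_cases h : a = a₁
    · subst h
      obtain ⟨g, hg⟩ := hd
      have h2 := congrArg (eval y) hg
      rw [eval_mul, eval_pow, eval_sub, eval_X, eval_C, sub_self, zero_pow (by omega), zero_mul, eval_finsetSum,
        ← add_sum_erase _ _ ha] at h2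
      rw [sum_eq_zero (fun b hb => by
        rw [eval_mul, eval_C, eval_pow, eval_X]
        exact h1 b hb), add_zero, eval_mul, eval_C, eval_pow, eval_X] at h2
      exact h2
    · exact h1 a (mem_erase.2 ⟨h, ha⟩)

lemma mo_congr {R : Type} [CommRing R] : ∀ (u : List ℕ) (y z : ℕ → R), (∀ i, i < u.length → y i = z i) →
    mo u y = mo u z
  | [], _, _, _ => rfl
  | b :: u, y, z, h => by
      unfold mo
      rw [h u.length (by simp), mo_congr u y z fun i hi => h i (by rw [List.length_cons]; omega)]

lemma mo_map {R S : Type} [CommRing R] [CommRing S] (φ : R →+* S) : ∀ (u : List ℕ) (y : ℕ → R),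
    φ (mo u y) = mo u (fun i => φ (y i))
  | [], y => by simp [mo]
  | b :: u, y => by
      unfold mo
      rw [map_mul, map_pow, mo_map φ u y]

/-- the monomials in few letters are independent -/
theorem indep_mo (N : ℕ) (hN : 1 ≤ N) (B : Finset ℕ) (hB : B.card ≤ N) : ∀ (r : ℕ) (F : Finset (List ℕ)),
    (∀ u ∈ F, u.length = r ∧ ∀ x ∈ u, x ∈ B) → ∀ lam : List ℕ → ℚ,
    (∀ (Q : Type) [CommRing Q] [Algebra ℚ Q] (y : ℕ → Q), (∀ j, (y j - y (j + 1)) ^ N = 0) → (∀ j, IsUnit (y j)) →
      ∑ u ∈ F, algebraMap ℚ Q (lam u) * mo u y = 0) → ∀ u ∈ F, lam u = 0 := by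
  classical
  intro r
  induction r with
  | zero =>
    intro F hF lam h u hu
    have h1 := h ℚ (fun _ => 1) (fun j => by rw [sub_self, zero_pow (by omega)]) (fun j => isUnit_one)
    have h2 : ∀ v ∈ F, v = [] := fun v hv => List.length_eq_zero_iff.1 (hF v hv).1
    have h3 : F = {[]} := by
      ext v
      rw [mem_singleton]
      refine ⟨h2 v, fun h4 => ?_⟩
      rw [h4, ← h2 u hu]
      exact hu
    rw [h3, sum_singleton] at h1
    rw [h2 u hu]
    simpa [mo] using h1
  | succ r ih =>
    intro F hF lam h u hu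
    obtain ⟨b, u', rfl⟩ : ∃ b u', u = b :: u' := by
      rcases u with _ | ⟨b, u'⟩
      · have := (hF [] hu).1
        simp at this
      · exact ⟨b, u', rfl⟩
    set Fb : ℕ → Finset (List ℕ) := fun b => (F.image List.tail).filter fun w => b :: w ∈ F with hFb
    have hmem : ∀ b w, w ∈ Fb b ↔ b :: w ∈ F := by
      intro b w
      simp only [hFb, mem_filter, mem_image]
      exact ⟨fun h => h.2, fun h => ⟨⟨b :: w, h, rfl⟩, h⟩⟩
    refine ih (Fb b) (fun w hw => ?_) (fun w => lam (b :: w)) ?_ u' ((hmem b u').2 hu)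
    · have h1 := hF _ ((hmem b w).1 hw)
      exact ⟨by simpa using h1.1, fun x hx => h1.2 x (List.mem_cons_of_mem _ hx)⟩
    intro Q _ _ y hy hu
    set z : Q := if r = 0 then 1 else y (r - 1) with hz
    have hzu : IsUnit z := by
      rw [hz]
      split_ifs
      · exact isUnit_one
      · exact hu _
    -- the extension
    set I : Ideal (Polynomial Q) := Ideal.span {(Polynomial.X - Polynomial.C z) ^ N} with hI
    set π : Polynomial Q →+* Polynomial Q ⧸ I := Ideal.Quotient.mk I with hπ
    set y' : ℕ → Polynomial Q ⧸ I := fun i => if i < r then π (Polynomial.C (y i)) else π Polynomial.X with hy'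
    have hnil : (π (Polynomial.X - Polynomial.C z)) ^ N = 0 := by
      rw [← map_pow, hπ, Ideal.Quotient.eq_zero_iff_mem, hI]
      exact Ideal.subset_span rfl
    have h1 : ∀ j, (y' j - y' (j + 1)) ^ N = 0 := by
      intro j
      simp only [hy']
      by_cases h1 : j + 1 < r
      · rw [if_pos (by omega), if_pos h1, ← map_sub, ← map_sub, ← map_pow, ← map_pow, hy j, map_zero, map_zero]
      · by_cases h2 : j < r
        · rw [if_pos h2, if_neg h1]
          have e1 : y j = z := by
            rw [hz, if_neg (by omega)]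
            congr 1
            omega
          rw [e1, ← map_sub, ← neg_sub Polynomial.X, map_neg]
          exact (neg_pow _ N).trans (by rw [hnil, mul_zero])
        · rw [if_neg h2, if_neg h1, sub_self, zero_pow (by omega)]
    have h2 : ∀ j, IsUnit (y' j) := by
      intro j
      simp only [hy']
      split_ifs
      · exact ((hu j).map Polynomial.C).map π
      · have e1 : π Polynomial.X = π (Polynomial.X - Polynomial.C z) + π (Polynomial.C z) := by
          rw [← map_add, sub_add_cancel]
        rw [e1]
        exact IsNilpotent.isUnit_add_right_of_commute ⟨N, hnil⟩ ((hzu.map Polynomial.C).map π) (Commute.all _ _)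
    have h3 := h (Polynomial Q ⧸ I) y' h1 h2
    -- the sum as a polynomial
    set A : Finset ℕ := B.image (2 * ·) with hA
    set v : ℕ → Q := fun a => ∑ w ∈ Fb (a / 2), algebraMap ℚ Q (lam (a / 2 :: w)) * mo w y with hv
    have h4 : ∑ a ∈ A, Polynomial.C (v a) * Polynomial.X ^ a =
        ∑ b ∈ B, ∑ w ∈ Fb b, Polynomial.C (algebraMap ℚ Q (lam (b :: w)) * mo w y) * Polynomial.X ^ (2 * b) := by
      rw [hA, sum_image (fun a _ b _ hab => by simpa using hab)]
      refine sum_congr rfl fun b _ => ?_
      simp only [hv]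
      rw [Nat.mul_div_cancel_left b (by omega), map_sum, sum_mul]
    have h5 : ∑ u ∈ F, algebraMap ℚ (Polynomial Q ⧸ I) (lam u) * mo u y' =
        π (∑ a ∈ A, Polynomial.C (v a) * Polynomial.X ^ a) := by
      rw [h4, map_sum]
      simp only [map_sum]
      rw [Finset.sum_sigma']
      symm
      refine sum_bij (fun p _ => p.1 :: p.2) ?_ ?_ ?_ ?_
      · rintro ⟨b, w⟩ hp
        rw [mem_sigma] at hp
        exact (hmem b w).1 hp.2
      · rintro ⟨b, w⟩ _ ⟨b', w'⟩ _ he
        simp only [List.cons.injEq] at he
        obtain ⟨rfl, rfl⟩ := he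
        rfl
      · intro u hu
        rcases u with _ | ⟨b, w⟩
        · have := (hF [] hu).1
          simp at this
        · refine ⟨⟨b, w⟩, ?_, rfl⟩
          rw [mem_sigma]
          exact ⟨(hF _ hu).2 b (List.mem_cons_self ..), (hmem b w).2 hu⟩
      · rintro ⟨b, w⟩ hp
        rw [mem_sigma] at hp
        have hw : w.length = r := by
          have := (hF _ ((hmem b w).1 hp.2)).1
          simpa using this
        have e1 : mo (b :: w) y' = y' w.length ^ (2 * b) * mo w y' := rfl
        have e2 : mo w y' = π (Polynomial.C (mo w y)) := by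
          rw [mo_map Polynomial.C w y, mo_map π]
          refine mo_congr w _ _ fun i hi => ?_
          simp only [hy']
          rw [if_pos (by omega)]
        have e3 : y' w.length = π Polynomial.X := by
          simp only [hy']
          rw [if_neg (by omega)]
        have e4 : algebraMap ℚ (Polynomial Q ⧸ I) (lam (b :: w)) = π (Polynomial.C (algebraMap ℚ Q (lam (b :: w)))) := rfl
        show π (Polynomial.C (algebraMap ℚ Q (lam (b :: w)) * mo w y) * Polynomial.X ^ (2 * b)) = _
        rw [e1, e2, e3, e4, map_mul, map_mul, map_mul, map_pow]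
        ring
    rw [h5, hπ, Ideal.Quotient.eq_zero_iff_mem, hI, Ideal.mem_span_singleton] at h3
    have h6 := few z N A v (card_image_le.trans hB) h3
    by_cases hbB : b ∈ B
    · have h7 := h6 (2 * b) (mem_image_of_mem _ hbB)
      have h8 := ((hzu.pow (2 * b)).mul_left_eq_zero).1 h7
      simp only [hv] at h8
      rw [Nat.mul_div_cancel_left b (by omega)] at h8
      exact h8
    · have : Fb b = ∅ := by
        rw [eq_empty_iff_forall_notMem]
        intro w hw
        exact hbB ((hF _ ((hmem b w).1 hw)).2 b (List.mem_cons_self ..))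
      rw [this, sum_empty]

/-- **few letters** -/
theorem few_words (M : ℕ) (B : Finset ℕ) (hB : B.card ≤ 2 * M + 1) (hM : ∀ b ∈ B, M ≤ b) (r : ℕ)
    (F : Finset (List ℕ)) (hF : ∀ u ∈ F, u.length = r ∧ ∀ x ∈ u, x ∈ B) (lam : List ℕ → ℚ)
    (h : ∀ y : ℕ → ℚ, ∑ u ∈ F, lam u * wd u y = 0) : ∀ u ∈ F, lam u = 0 := by
  have h1 : ∑ u ∈ F, MvPolynomial.C (lam u) * PP u = 0 := by
    apply MvPolynomial.funext
    intro y
    rw [map_sum, map_zero, ← h y]
    refine sum_congr rfl fun u _ => ?_
    rw [map_mul, MvPolynomial.eval_C, wd_wR, ← aeval_PP u y]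
    rfl
  refine indep_mo (2 * M + 1) (by omega) B hB r F hF lam ?_
  intro Q _ _ y hy _
  have h3 := congrArg (MvPolynomial.aeval y) h1
  rw [map_sum, map_zero] at h3
  rw [← h3]
  refine sum_congr rfl fun u hu => ?_
  rw [map_mul, aeval_PP, MvPolynomial.aeval_C, nil M u y (fun x hx => hM x ((hF u hu).2 x hx)) hy]

end Pool.Agent.D0H7.BK
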