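import Pool.Agent.N568.BK.Free2

/-!
# Words in large letters (helper7)
-/

set_option autoImplicit false

namespace Pool.Agent.D0H7.BK

open Finset
open Pool.Agent.N568.BK (c wd comp word om tl vec)

/-- the variable `j` is skipped -/
def sk (j i : ℕ) : ℕ := if i < j then i else i + 1

/-- the product of the letters of a word, as a function over a commutative ring -/
def wR {R : Type} [CommRing R] : List ℕ → (ℕ → R) → R
  | [], _ => 1
  | b :: u, y => y u.length ^ (2 * b) * wR u y +
      ∑ j ∈ range u.length, (y j - y (j + 1)) ^ (2 * b) * (wR u (fun i => y (sk j i)) - wR u (fun i => y (sk (j + 1) i)))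

/-- the product of the letters of a word, as a polynomial -/
noncomputable def PP : List ℕ → MvPolynomial ℕ ℚ
  | [] => 1
  | b :: u => MvPolynomial.X u.length ^ (2 * b) * PP u +
      ∑ j ∈ range u.length, (MvPolynomial.X j - MvPolynomial.X (j + 1)) ^ (2 * b) *
        (MvPolynomial.rename (sk j) (PP u) - MvPolynomial.rename (sk (j + 1)) (PP u))

lemma aeval_PP {R : Type} [CommRing R] [Algebra ℚ R] : ∀ (u : List ℕ) (y : ℕ → R),
    MvPolynomial.aeval y (PP u) = wR u y
  | [], y => by simp [PP, wR]
  | b :: u, y => by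
      unfold PP wR
      simp only [map_add, map_mul, map_pow, map_sum, map_sub, MvPolynomial.aeval_X, MvPolynomial.aeval_rename]
      rw [aeval_PP u y]
      congr 1
      refine sum_congr rfl fun j _ => ?_
      rw [← aeval_PP u (fun i => y (sk j i)), ← aeval_PP u (fun i => y (sk (j + 1) i))]
      rfl

lemma wd_wR : ∀ (u : List ℕ) (y : ℕ → ℚ), wd u y = wR u y
  | [], y => rfl
  | b :: u, y => by
      unfold wd wR comp
      rw [wd_wR u y]
      congr 1
      refine sum_congr rfl fun j _ => ?_
      rw [wd_wR u, wd_wR u]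
      have h : ∀ k, om k y = fun i => y (sk k i) := by
        intro k
        funext i
        unfold om sk
        split_ifs <;> rfl
      rw [h, h]

/-- the first monomial -/
def mo {R : Type} [CommRing R] : List ℕ → (ℕ → R) → R
  | [], _ => 1
  | b :: u, y => y u.length ^ (2 * b) * mo u y

/-- the monomial of a word -/
def ms {R : Type} [CommRing R] : List ℕ → (ℕ → R) → R
  | [], _ => 1
  | b :: u, y => y u.length ^ b * ms u y

section

variable {R : Type} [CommRing R]

lemma mo_ms : ∀ (u : List ℕ) (y : ℕ → R), mo u y = ms u (fun i => y i ^ 2)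
  | [], _ => rfl
  | b :: u, y => by
      unfold mo ms
      rw [mo_ms u y, pow_mul]

lemma mo_one (t : R) : ∀ (u : List ℕ) (y : ℕ → R), (∀ i, t ∣ y i - 1) → t ∣ mo u y - 1
  | [], y, _ => by simp [mo]
  | b :: u, y, h => by
      unfold mo
      have h1 := mo_one t u y h
      have h2 : t ∣ y u.length ^ (2 * b) - 1 := (h u.length).trans (sub_one_dvd_pow_sub_one _ _)
      have e : y u.length ^ (2 * b) * mo u y - 1 = y u.length ^ (2 * b) * (mo u y - 1) + (y u.length ^ (2 * b) - 1) := by
        ring
      rw [e]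
      exact dvd_add (h1.mul_left _) h2

/-- **the order of contact at `(1, …, 1)`** -/
theorem contact (t : R) (M : ℕ) (hM : 1 ≤ M) : ∀ (u : List ℕ) (y : ℕ → R), (∀ x ∈ u, M ≤ x) →
    (∀ i, t ∣ y i - 1) → t ^ (2 * M + 1) ∣ wR u y - mo u y
  | [], y, _, _ => by simp [wR, mo]
  | b :: u, y, hu, h => by
      have hu' : ∀ x ∈ u, M ≤ x := fun x hx => hu x (List.mem_cons_of_mem _ hx)
      have hb : M ≤ b := hu b (List.mem_cons_self ..)
      have hone : ∀ y' : ℕ → R, (∀ i, t ∣ y' i - 1) → t ∣ wR u y' - 1 := by
        intro y' h'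
        have h1 := contact t M hM u y' hu' h'
        have h2 := mo_one t u y' h'
        have h3 : t ∣ t ^ (2 * M + 1) := dvd_pow_self t (by omega)
        have e : wR u y' - 1 = (wR u y' - mo u y') + (mo u y' - 1) := by ring
        rw [e]
        exact dvd_add (h3.trans h1) h2
      unfold wR mo
      have e : y u.length ^ (2 * b) * wR u y + ∑ j ∈ range u.length, (y j - y (j + 1)) ^ (2 * b) *
          (wR u (fun i => y (sk j i)) - wR u (fun i => y (sk (j + 1) i))) - y u.length ^ (2 * b) * mo u y =
          y u.length ^ (2 * b) * (wR u y - mo u y) + ∑ j ∈ range u.length, (y j - y (j + 1)) ^ (2 * b) *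
          (wR u (fun i => y (sk j i)) - wR u (fun i => y (sk (j + 1) i))) := by ring
      rw [e]
      refine dvd_add ((contact t M hM u y hu' h).mul_left _) (dvd_sum fun j _ => ?_)
      have h1 : t ∣ y j - y (j + 1) := by
        have e1 : y j - y (j + 1) = (y j - 1) - (y (j + 1) - 1) := by ring
        rw [e1]
        exact dvd_sub (h j) (h (j + 1))
      have h2 : t ^ (2 * M) ∣ (y j - y (j + 1)) ^ (2 * b) :=
        (pow_dvd_pow t (by omega)).trans (pow_dvd_pow_of_dvd h1 (2 * b))
      have h3 : t ∣ wR u (fun i => y (sk j i)) - wR u (fun i => y (sk (j + 1) i)) := by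
        have e2 : wR u (fun i => y (sk j i)) - wR u (fun i => y (sk (j + 1) i)) =
          (wR u (fun i => y (sk j i)) - 1) - (wR u (fun i => y (sk (j + 1) i)) - 1) := by ring
        rw [e2]
        exact dvd_sub (hone _ fun i => h _) (hone _ fun i => h _)
      rw [pow_succ]
      exact mul_dvd_mul h2 h3

lemma ms_sub (M : ℕ) : ∀ (u : List ℕ) (x : ℕ → R), (∀ b ∈ u, M ≤ b) →
    ms u x = (∏ i ∈ range u.length, x i) ^ M * ms (u.map (· - M)) x
  | [], x, _ => by simp [ms]
  | b :: u, x, hu => by
      have hb : M ≤ b := hu b (List.mem_cons_self ..)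
      rw [List.map_cons]
      unfold ms
      rw [ms_sub M u x (fun x hx => hu x (List.mem_cons_of_mem _ hx)), List.length_cons, prod_range_succ,
        List.length_map, mul_pow]
      have e : x u.length ^ b = x u.length ^ M * x u.length ^ (b - M) := by
        rw [← pow_add]
        congr 1
        omega
      rw [e]
      ring

end

/-! ### independence of the monomials -/

/-- the exponents -/
noncomputable def ex : List ℕ → (ℕ →₀ ℕ)
  | [] => 0
  | b :: u => Finsupp.single u.length b + ex u

lemma ex_ge : ∀ (u : List ℕ) (i : ℕ), u.length ≤ i → ex u i = 0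
  | [], i, _ => rfl
  | b :: u, i, h => by
      unfold ex
      rw [List.length_cons] at h
      rw [Finsupp.add_apply, ex_ge u i (by omega), Finsupp.single_apply, if_neg (by omega)]

lemma ex_inj : ∀ (u v : List ℕ), u.length = v.length → ex u = ex v → u = v
  | [], [], _, _ => rfl
  | [], b :: v, h, _ => by simp at h
  | b :: u, [], h, _ => by simp at h
  | b :: u, b' :: v, h, he => by
      have hl : u.length = v.length := by simpa using h
      have h1 := DFunLike.congr_fun he u.length
      unfold ex at h1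
      rw [Finsupp.add_apply, Finsupp.add_apply, ex_ge u _ le_rfl, ex_ge v _ hl.ge, Finsupp.single_apply,
        Finsupp.single_apply, if_pos rfl, if_pos hl.symm] at h1
      have h2 : b = b' := by simpa using h1
      subst h2
      have h3 : ex u = ex v := by
        unfold ex at he
        rw [hl] at he
        exact add_left_cancel he
      rw [ex_inj u v hl h3]

lemma eval_ex : ∀ (u : List ℕ) (x : ℕ → ℚ), MvPolynomial.eval x (MvPolynomial.monomial (ex u) (1 : ℚ)) = ms u x
  | [], x => by simp [ex, ms]
  | b :: u, x => by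
      have h : MvPolynomial.monomial (ex (b :: u)) (1 : ℚ) =
          MvPolynomial.X u.length ^ b * MvPolynomial.monomial (ex u) 1 := by
        have h0 : ex (b :: u) = Finsupp.single u.length b + ex u := rfl
        rw [h0, MvPolynomial.X_pow_eq_monomial, MvPolynomial.monomial_mul, one_mul]
      rw [h, map_mul, map_pow, MvPolynomial.eval_X, eval_ex u x]
      rfl

lemma mono_indep (r : ℕ) (F : Finset (List ℕ)) (φ : List ℕ → List ℕ) (hφ : ∀ u ∈ F, (φ u).length = r)
    (hinj : ∀ u ∈ F, ∀ v ∈ F, φ u = φ v → u = v) (lam : List ℕ → ℚ)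
    (h : ∀ x : ℕ → ℚ, ∑ u ∈ F, lam u * ms (φ u) x = 0) : ∀ u ∈ F, lam u = 0 := by
  have h1 : ∑ u ∈ F, MvPolynomial.C (lam u) * MvPolynomial.monomial (ex (φ u)) (1 : ℚ) = 0 := by
    apply MvPolynomial.funext
    intro x
    rw [map_sum, map_zero, ← h x]
    refine sum_congr rfl fun u _ => ?_
    rw [map_mul, MvPolynomial.eval_C, eval_ex]
  intro u hu
  have h2 := congrArg (MvPolynomial.coeff (ex (φ u))) h1
  rw [MvPolynomial.coeff_zero, MvPolynomial.coeff_sum, sum_eq_single u] at h2
  · rw [MvPolynomial.coeff_C_mul, MvPolynomial.coeff_monomial, if_pos rfl, mul_one] at h2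
    exact h2
  · intro v hv hne
    rw [MvPolynomial.coeff_C_mul, MvPolynomial.coeff_monomial, if_neg, mul_zero]
    intro h3
    exact hne (hinj v hv u hu (ex_inj _ _ ((hφ v hv).trans (hφ u hu).symm) h3))
  · exact fun h3 => absurd hu h3

/-! ### the square root -/

open PowerSeries in
lemma exists_sqrt (z : ℚ) : ∃ y : PowerSeries ℚ, y ^ 2 = 1 + PowerSeries.C z * PowerSeries.X ∧
    PowerSeries.X ∣ y - 1 := by
  set a : PowerSeries ℚ := PowerSeries.binomialSeries ℚ ((1 : ℚ) / 2) with ha
  have h1 : a ^ 2 = 1 + PowerSeries.X := by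
    rw [pow_two, ha, ← PowerSeries.binomialSeries_add]
    have := PowerSeries.binomialSeries_nat (R := ℚ) (A := ℚ) 1
    rw [pow_one] at this
    rw [← this]
    congr 1
    norm_num
  have h2 : PowerSeries.constantCoeff a = 1 := PowerSeries.binomialSeries_constantCoeff _
  refine ⟨PowerSeries.rescale z a, ?_, ?_⟩
  · rw [← map_pow, h1, map_add, map_one, PowerSeries.rescale_X]
  · rw [PowerSeries.X_dvd_iff, map_sub, map_one]
    have h3 : PowerSeries.constantCoeff (PowerSeries.rescale z a) = PowerSeries.constantCoeff a := by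
      rw [← PowerSeries.coeff_zero_eq_constantCoeff_apply, ← PowerSeries.coeff_zero_eq_constantCoeff_apply,
        PowerSeries.coeff_rescale, pow_zero, one_mul]
    rw [h3, h2, sub_self]

/-! ### the theorem -/

lemma ms_map {R S : Type} [CommRing R] [CommRing S] (φ : R →+* S) : ∀ (u : List ℕ) (x : ℕ → R),
    φ (ms u x) = ms u (fun i => φ (x i))
  | [], x => by simp [ms]
  | b :: u, x => by
      unfold ms
      rw [map_mul, map_pow, ms_map φ u x]

lemma ms_deg (Z : ℕ → ℚ) : ∀ (u : List ℕ),
    (ms u (fun i => (1 + Polynomial.C (Z i) * Polynomial.X : Polynomial ℚ))).natDegree ≤ u.sum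
  | [] => by simp [ms]
  | b :: u => by
      unfold ms
      rw [List.sum_cons]
      refine Polynomial.natDegree_mul_le.trans (Nat.add_le_add ?_ (ms_deg Z u))
      refine Polynomial.natDegree_pow_le.trans ?_
      have h : (1 + Polynomial.C (Z u.length) * Polynomial.X : Polynomial ℚ).natDegree ≤ 1 := by
        refine (Polynomial.natDegree_add_le _ _).trans ?_
        rw [Polynomial.natDegree_one]
        refine max_le (by omega) ((Polynomial.natDegree_C_mul_le _ _).trans ?_)
        rw [Polynomial.natDegree_X]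
      calc b * _ ≤ b * 1 := Nat.mul_le_mul_left _ h
        _ = b := by omega

lemma sum_sub (M : ℕ) : ∀ u : List ℕ, (∀ x ∈ u, M ≤ x) → (u.map (· - M)).sum + u.length * M = u.sum
  | [], _ => by simp
  | b :: u, h => by
      have h1 := sum_sub M u (fun x hx => h x (List.mem_cons_of_mem _ hx))
      have h2 : M ≤ b := h b (List.mem_cons_self ..)
      rw [List.map_cons, List.sum_cons, List.length_cons, List.sum_cons, Nat.add_mul, Nat.one_mul]
      omega

lemma sub_inj (M : ℕ) : ∀ u v : List ℕ, (∀ x ∈ u, M ≤ x) → (∀ x ∈ v, M ≤ x) →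
    u.map (· - M) = v.map (· - M) → u = v
  | [], [], _, _, _ => rfl
  | [], b :: v, _, _, h => by simp at h
  | b :: u, [], _, _, h => by simp at h
  | b :: u, b' :: v, hu, hv, h => by
      rw [List.map_cons, List.map_cons, List.cons.injEq] at h
      have h1 : M ≤ b := hu b (List.mem_cons_self ..)
      have h2 : M ≤ b' := hv b' (List.mem_cons_self ..)
      have h3 : b = b' := by
        have := h.1
        omega
      rw [h3, sub_inj M u v (fun x hx => hu x (List.mem_cons_of_mem _ hx))
        (fun x hx => hv x (List.mem_cons_of_mem _ hx)) h.2]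

/-- **words of length `r` and sum `n ≤ (r + 2) M` in letters `≥ M` are linearly independent** -/
theorem window (r n M : ℕ) (hM : 1 ≤ M) (hn : n ≤ (r + 2) * M) (F : Finset (List ℕ))
    (hF : ∀ u ∈ F, u.length = r ∧ u.sum = n ∧ ∀ x ∈ u, M ≤ x) (lam : List ℕ → ℚ)
    (h : ∀ y : ℕ → ℚ, ∑ u ∈ F, lam u * wd u y = 0) : ∀ u ∈ F, lam u = 0 := by
  -- the identity of polynomials
  have h1 : ∑ u ∈ F, MvPolynomial.C (lam u) * PP u = 0 := by
    apply MvPolynomial.funext
    intro y
    rw [map_sum, map_zero, ← h y]
    refine sum_congr rfl fun u _ => ?_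
    rw [map_mul, MvPolynomial.eval_C, wd_wR, ← aeval_PP u y]
    rfl
  have h2 : ∀ y : ℕ → PowerSeries ℚ, ∑ u ∈ F, PowerSeries.C (lam u) * wR u y = 0 := by
    intro y
    have h3 := congrArg (MvPolynomial.aeval y) h1
    rw [map_sum, map_zero] at h3
    rw [← h3]
    refine sum_congr rfl fun u _ => ?_
    rw [map_mul, aeval_PP, MvPolynomial.aeval_C]
    rfl
  refine mono_indep r F (List.map (· - M)) (fun u hu => by rw [List.length_map]; exact (hF u hu).1)
    (fun u hu v hv => sub_inj M u v (hF u hu).2.2 (hF v hv).2.2) lam ?_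
  intro x
  choose y hy1 hy2 using fun i => exists_sqrt (x i - 1)
  -- the contact
  have h3 : PowerSeries.X ^ (2 * M + 1) ∣ ∑ u ∈ F, PowerSeries.C (lam u) * mo u y := by
    have e : ∑ u ∈ F, PowerSeries.C (lam u) * mo u y =
        ∑ u ∈ F, PowerSeries.C (lam u) * wR u y - ∑ u ∈ F, PowerSeries.C (lam u) * (wR u y - mo u y) := by
      rw [← sum_sub_distrib]
      exact sum_congr rfl fun u _ => by ring
    rw [e, h2 y, zero_sub, dvd_neg]
    exact dvd_sum fun u hu => (contact PowerSeries.X M hM u y (hF u hu).2.2 hy2).mul_left _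
  set q : Polynomial ℚ := ∑ u ∈ F, Polynomial.C (lam u) *
    ms (u.map (· - M)) (fun i => (1 + Polynomial.C (x i - 1) * Polynomial.X : Polynomial ℚ)) with hq
  have h4 : ∑ u ∈ F, PowerSeries.C (lam u) * mo u y =
      (∏ i ∈ range r, (1 + PowerSeries.C (x i - 1) * PowerSeries.X : PowerSeries ℚ)) ^ M * (q : PowerSeries ℚ) := by
    have e1 : (q : PowerSeries ℚ) = ∑ u ∈ F, PowerSeries.C (lam u) *
        ms (u.map (· - M)) (fun i => (1 + PowerSeries.C (x i - 1) * PowerSeries.X : PowerSeries ℚ)) := by
      have e2 : (q : PowerSeries ℚ) = Polynomial.coeToPowerSeries.ringHom q := rfl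
      rw [e2, hq, map_sum]
      refine sum_congr rfl fun u _ => ?_
      rw [map_mul, ms_map, Polynomial.coeToPowerSeries.ringHom_apply, Polynomial.coe_C]
      congr 2
      funext i
      rw [map_add, map_one, map_mul, Polynomial.coeToPowerSeries.ringHom_apply,
        Polynomial.coeToPowerSeries.ringHom_apply, Polynomial.coe_C, Polynomial.coe_X]
    rw [e1, mul_sum]
    refine sum_congr rfl fun u hu => ?_
    rw [mo_ms u y]
    have e3 : (fun i => y i ^ 2) = fun i => (1 + PowerSeries.C (x i - 1) * PowerSeries.X : PowerSeries ℚ) :=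
      funext hy1
    rw [e3, ms_sub M u _ (hF u hu).2.2, (hF u hu).1]
    ring
  rw [h4] at h3
  have hunit : IsUnit ((∏ i ∈ range r, (1 + PowerSeries.C (x i - 1) * PowerSeries.X : PowerSeries ℚ)) ^ M) := by
    rw [PowerSeries.isUnit_iff_constantCoeff, map_pow, map_prod]
    apply IsUnit.pow
    have e : ∀ i ∈ range r, PowerSeries.constantCoeff (1 + PowerSeries.C (x i - 1) * PowerSeries.X : PowerSeries ℚ) = 1 := by
      intro i _
      simp
    rw [prod_congr rfl e, prod_const_one]
    exact isUnit_one
  have h5 : PowerSeries.X ^ (2 * M + 1) ∣ (q : PowerSeries ℚ) := hunit.dvd_mul_left.1 h3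
  have hdeg : q.natDegree ≤ 2 * M := by
    rw [hq]
    refine Polynomial.natDegree_sum_le_of_forall_le _ _ fun u hu => ?_
    refine (Polynomial.natDegree_C_mul_le _ _).trans ((ms_deg _ _).trans ?_)
    have e1 := sum_sub M u (hF u hu).2.2
    rw [(hF u hu).1, (hF u hu).2.1] at e1
    have e2 : (r + 2) * M = r * M + 2 * M := by ring
    omega
  have h6 : q = 0 := by
    ext k
    rw [Polynomial.coeff_zero]
    by_cases hk : k < 2 * M + 1
    · rw [← Polynomial.coeff_coe]
      exact (PowerSeries.X_pow_dvd_iff.1 h5) k hk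
    · exact Polynomial.coeff_eq_zero_of_natDegree_lt (by omega)
  have h7 := congrArg (Polynomial.evalRingHom (1 : ℚ)) h6
  rw [map_zero, hq, map_sum] at h7
  rw [← h7]
  refine sum_congr rfl fun u _ => ?_
  rw [map_mul, ms_map]
  congr 1
  · simp
  · congr 1
    funext i
    simp

end Pool.Agent.D0H7.BK
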